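import Mathlib
import Pool.Agent.W268.Dy.Stm

/-!
Dyadic (tree) models of the Navier-Stokes equations: parabolic bootstrap.
-/

set_option autoImplicit false

namespace Pool.Agent.W479.DyBoot

open Pool.Agent.W268.Dy Finset Filter Topology

/-- comparison with a linear equation -/
theorem comp (f : ℝ → ℝ) (t1 a g : ℝ) (ha : 0 < a) (hg : 0 ≤ g)
    (hc : ContinuousOn f (Set.Ici t1))
    (hd : ∀ t, t1 < t → ∃ d, HasDerivAt f d t ∧ d ≤ -(a * f t) + g) :
    ∀ t, t1 ≤ t → f t ≤ Real.exp (-(a * (t - t1))) * f t1 + g / a := by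
  intro t ht
  let h : ℝ → ℝ := fun s => Real.exp (a * (s - t1)) * (f s - g / a)
  have hanti : AntitoneOn h (Set.Ici t1) := by
    refine antitoneOn_of_deriv_nonpos (convex_Ici t1) ?_ ?_ ?_
    · exact (Continuous.continuousOn (by fun_prop)).mul (hc.sub continuousOn_const)
    · intro s hs
      rw [interior_Ici] at hs
      obtain ⟨d, hd1, -⟩ := hd s hs
      have : HasDerivAt h _ s := (((hasDerivAt_id s).sub_const t1).const_mul a).exp.mul
        (hd1.sub_const (g / a))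
      exact this.differentiableAt.differentiableWithinAt
    · intro s hs
      rw [interior_Ici] at hs
      obtain ⟨d, hd1, hd2⟩ := hd s hs
      have h1 : HasDerivAt h (Real.exp (a * (s - t1)) * (a * 1) * (f s - g / a) +
          Real.exp (a * (s - t1)) * d) s :=
        (((hasDerivAt_id s).sub_const t1).const_mul a).exp.mul (hd1.sub_const (g / a))
      rw [h1.deriv]
      have h2 : Real.exp (a * (s - t1)) * (a * 1) * (f s - g / a) +
          Real.exp (a * (s - t1)) * d = Real.exp (a * (s - t1)) * (a * f s - g + d) := by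
        field_simp
      rw [h2]
      exact mul_nonpos_of_nonneg_of_nonpos (Real.exp_pos _).le (by linarith)
  have h3 := hanti (Set.mem_Ici.2 le_rfl) (Set.mem_Ici.2 ht) ht
  simp only [h, sub_self, mul_zero, Real.exp_zero, one_mul] at h3
  have h4 : Real.exp (-(a * (t - t1))) * (Real.exp (a * (t - t1)) * (f t - g / a)) =
      f t - g / a := by
    rw [← mul_assoc, ← Real.exp_add, neg_add_cancel, Real.exp_zero, one_mul]
  have h5 := mul_le_mul_of_nonneg_left h3 (Real.exp_pos (-(a * (t - t1)))).le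
  rw [h4] at h5
  have h6 : 0 ≤ g / a := div_nonneg hg ha.le
  have h7 : 0 ≤ Real.exp (-(a * (t - t1))) * (g / a) := mul_nonneg (Real.exp_pos _).le h6
  linarith

/-- `Sub` is monotone in the initial time -/
theorem sub_mono {K : ℕ} {ν μ q t1 t2 : ℝ} {X : ℝ → Node K → ℝ} (h : Sub ν μ q t1 X)
    (h12 : t1 ≤ t2) : Sub ν μ q t2 X :=
  ⟨fun t ht w => h.1 t (h12.trans ht) w,
    fun w => (h.2.1 w).mono (Set.Ici_subset_Ici.2 h12),
    fun w t ht => h.2.2 w t (lt_of_le_of_lt h12 ht)⟩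

/-- one step of the bootstrap -/
theorem one {K : ℕ} {ν μ q t1 A ρ : ℝ} {X : ℝ → Node K → ℝ} (hν : 0 < ν) (hμ : 1 < μ)
    (hq : 0 < q) (hρ : 0 < ρ) (h : Sub ν μ q t1 X)
    (hX : ∀ t, t1 ≤ t → ∀ w, X t w ≤ A * ρ ^ w.length) (t : ℝ) (ht : t1 ≤ t) (c : Fin K)
    (u : Node K) : X t (c :: u) ≤ Real.exp (-(ν * μ ^ (u.length + 1) * (t - t1))) * X t1 (c :: u) +
      (A ^ 2 / (ν * ρ ^ 2)) * (ρ * (q * ρ / μ)) ^ (u.length + 1) := by
  have hμ0 : 0 < μ := by linarith
  have ha : 0 < ν * μ ^ (u.length + 1) := by positivity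
  have hg : 0 ≤ q ^ (u.length + 1) * (A * ρ ^ u.length) ^ 2 := by positivity
  have h1 := comp (fun s => X s (c :: u)) t1 (ν * μ ^ (u.length + 1))
    (q ^ (u.length + 1) * (A * ρ ^ u.length) ^ 2) ha hg (h.2.1 _) (by
      intro s hs
      obtain ⟨d, hd1, hd2⟩ := h.2.2 (c :: u) s hs
      refine ⟨d, hd1, hd2.trans ?_⟩
      have h2 : gain q (X s) (c :: u) ≤ q ^ (u.length + 1) * (A * ρ ^ u.length) ^ 2 := by
        rw [gain]
        have h3 := hX s hs.le u
        have h4 := h.1 s hs.le u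
        gcongr
      have h5 : (c :: u).length = u.length + 1 := List.length_cons
      rw [h5]
      linarith) t ht
  refine h1.trans (le_of_eq ?_)
  congr 1
  have hμn : μ ^ (u.length + 1) ≠ 0 := by positivity
  have e1 : (ρ * (q * ρ / μ)) ^ (u.length + 1) =
      q ^ (u.length + 1) * (ρ ^ u.length) ^ 2 * ρ ^ 2 / μ ^ (u.length + 1) := by
    rw [mul_pow, div_pow, mul_pow]
    ring
  rw [e1]
  field_simp

/-- the exponential beats every geometric sequence -/
theorem expb (a μ η : ℝ) (ha : 0 < a) (hμ : 1 < μ) (hη : 0 < η) :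
    ∃ C : ℝ, 0 ≤ C ∧ ∀ n : ℕ, Real.exp (-(a * μ ^ n)) ≤ C * η ^ n := by
  obtain ⟨k, hk⟩ := pow_unbounded_of_one_lt (1 / η) hμ
  have hμ0 : 0 < μ := by linarith
  refine ⟨k.factorial / a ^ k, by positivity, fun n => ?_⟩
  have h1 := Real.pow_div_factorial_le_exp (x := a * μ ^ n) (by positivity) k
  have h2 : (a * μ ^ n) ^ k / k.factorial > 0 := by positivity
  have h3 : Real.exp (-(a * μ ^ n)) ≤ k.factorial / (a * μ ^ n) ^ k := by
    rw [Real.exp_neg, ← one_div, div_le_div_iff₀ (Real.exp_pos _) (by positivity)]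
    rw [div_le_iff₀ (by positivity)] at h1
    linarith
  refine h3.trans ?_
  have h4 : 1 ≤ (μ ^ k * η) ^ n := by
    apply one_le_pow₀
    rw [div_lt_iff₀ hη] at hk
    exact hk.le
  have e : (k.factorial : ℝ) / a ^ k * η ^ n =
      (k.factorial : ℝ) / (a * μ ^ n) ^ k * (μ ^ k * η) ^ n := by
    rw [mul_pow, mul_pow, ← pow_mul, ← pow_mul, mul_comm n k]
    have : μ ^ (k * n) ≠ 0 := by positivity
    field_simp
  rw [e]
  exact le_mul_of_one_le_right (by positivity) h4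

theorem boot_ind {ν μ q : ℝ} (hν : 0 < ν) (hμ : 1 < μ) (hq : 0 < q) (k : ℕ) :
    ∀ A ρ τ ρ' : ℝ, 0 ≤ A → 0 < ρ → q * ρ < μ → 0 < τ → ρ * (q * ρ / μ) ^ k ≤ ρ' →
    ∃ A' : ℝ, ∀ (K : ℕ) (X : ℝ → Node K → ℝ) (t1 : ℝ), Sub ν μ q t1 X →
      (∀ t, t1 ≤ t → ∀ w, X t w ≤ A * ρ ^ w.length) →
      ∀ t, t1 + τ ≤ t → ∀ w, X t w ≤ A' * ρ' ^ w.length := by
  have hμ0 : 0 < μ := by linarith
  induction k with
  | zero =>
    intro A ρ τ ρ' hA hρ _ hτ hρ'
    rw [pow_zero, mul_one] at hρ'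
    refine ⟨A, fun K X t1 _ hX t ht w => (hX t (by linarith) w).trans ?_⟩
    gcongr
  | succ k ih =>
    intro A ρ τ ρ' hA hρ hqρ hτ hρ'
    have hη0 : 0 < q * ρ / μ := by positivity
    have hη1 : q * ρ / μ < 1 := by rwa [div_lt_one hμ0]
    have hρ10 : 0 < ρ * (q * ρ / μ) := by positivity
    have hρ11 : ρ * (q * ρ / μ) ≤ ρ := by nlinarith
    obtain ⟨C, hC0, hC⟩ := expb (ν * (τ / 2)) μ (q * ρ / μ) (by positivity) hμ hη0
    set A1 := A + A * C + A ^ 2 / (ν * ρ ^ 2) with hA1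
    have hA10 : 0 ≤ A1 := by positivity
    obtain ⟨A', hA'⟩ := ih A1 (ρ * (q * ρ / μ)) (τ / 2) ρ' hA10 hρ10
      (lt_of_le_of_lt (mul_le_mul_of_nonneg_left hρ11 hq.le) hqρ) (by linarith) (by
        refine le_trans ?_ hρ'
        have h0 : q * (ρ * (q * ρ / μ)) / μ ≤ q * ρ / μ := by gcongr
        calc ρ * (q * ρ / μ) * (q * (ρ * (q * ρ / μ)) / μ) ^ k
            ≤ ρ * (q * ρ / μ) * (q * ρ / μ) ^ k := by gcongr
          _ = ρ * (q * ρ / μ) ^ (k + 1) := by ring)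
    refine ⟨A', fun K X t1 hS hX t ht w => ?_⟩
    refine hA' K X (t1 + τ / 2) (sub_mono hS (by linarith)) (fun s hs v => ?_) t (by linarith) w
    rcases v with _ | ⟨c, u⟩
    · have h1 := hX s (by linarith) []
      simp only [List.length_nil, pow_zero, mul_one] at h1 ⊢
      have : 0 ≤ A * C + A ^ 2 / (ν * ρ ^ 2) := by positivity
      linarith
    · have h1 := one hν hμ hq hρ hS hX s (by linarith) c u
      rw [List.length_cons]
      have h2 := hX t1 le_rfl (c :: u)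
      rw [List.length_cons] at h2
      have h3 : Real.exp (-(ν * μ ^ (u.length + 1) * (s - t1))) ≤ C * (q * ρ / μ) ^ (u.length + 1) := by
        refine le_trans (Real.exp_le_exp.2 ?_) (hC (u.length + 1))
        have h4 : τ / 2 ≤ s - t1 := by linarith
        have h5 : 0 < ν * μ ^ (u.length + 1) := by positivity
        nlinarith
      have h6 : Real.exp (-(ν * μ ^ (u.length + 1) * (s - t1))) * X t1 (c :: u) ≤
          A * C * (ρ * (q * ρ / μ)) ^ (u.length + 1) := by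
        calc Real.exp (-(ν * μ ^ (u.length + 1) * (s - t1))) * X t1 (c :: u)
            ≤ (C * (q * ρ / μ) ^ (u.length + 1)) * (A * ρ ^ (u.length + 1)) := by
              apply mul_le_mul h3 h2 (hS.1 t1 le_rfl _) (by positivity)
          _ = A * C * (ρ * (q * ρ / μ)) ^ (u.length + 1) := by
              rw [mul_pow ρ]; ring
      have h7 : 0 ≤ A * (ρ * (q * ρ / μ)) ^ (u.length + 1) := by positivity
      rw [hA1]
      nlinarith

theorem main : S_boot := by
  intro ν μ q A ρ τ ρ' hν hμ hq hA hρ hqρ hτ hρ'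
  have hμ0 : 0 < μ := by linarith
  have hη0 : 0 < q * ρ / μ := by positivity
  have hη1 : q * ρ / μ < 1 := by rwa [div_lt_one hμ0]
  obtain ⟨k, hk⟩ := exists_pow_lt_of_lt_one (show 0 < ρ' / ρ by positivity) hη1
  refine boot_ind hν hμ hq k A ρ τ ρ' hA hρ hqρ hτ ?_
  rw [lt_div_iff₀ hρ] at hk
  linarith

theorem boot0_ind {ν μ q : ℝ} {B : ℝ → ℝ} (hν : 0 < ν) (hμ : 1 < μ) (hq : 0 < q) (k : ℕ) :
    ∀ A ρ ρ' : ℝ, 0 ≤ A → 0 < ρ → q * ρ < μ → ρ * (q * ρ / μ) ^ k ≤ ρ' →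
    ∃ A' : ℝ, ∀ (K : ℕ) (X : ℝ → Node K → ℝ) (t1 : ℝ), Sub ν μ q t1 X →
      (∀ t, t1 ≤ t → ∀ w, X t w ≤ A * ρ ^ w.length) →
      (∀ ρ1, 0 < ρ1 → ∀ w, X t1 w ≤ B ρ1 * ρ1 ^ w.length) →
      ∀ t, t1 ≤ t → ∀ w, X t w ≤ A' * ρ' ^ w.length := by
  have hμ0 : 0 < μ := by linarith
  induction k with
  | zero =>
    intro A ρ ρ' hA hρ _ hρ'
    rw [pow_zero, mul_one] at hρ'
    refine ⟨A, fun K X t1 _ hX _ t ht w => (hX t ht w).trans ?_⟩
    gcongr
  | succ k ih =>
    intro A ρ ρ' hA hρ hqρ hρ'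
    have hη0 : 0 < q * ρ / μ := by positivity
    have hη1 : q * ρ / μ < 1 := by rwa [div_lt_one hμ0]
    have hρ10 : 0 < ρ * (q * ρ / μ) := by positivity
    have hρ11 : ρ * (q * ρ / μ) ≤ ρ := by nlinarith
    set A1 := A + |B (ρ * (q * ρ / μ))| + A ^ 2 / (ν * ρ ^ 2) with hA1
    have hA10 : 0 ≤ A1 := by positivity
    obtain ⟨A', hA'⟩ := ih A1 (ρ * (q * ρ / μ)) ρ' hA10 hρ10
      (lt_of_le_of_lt (mul_le_mul_of_nonneg_left hρ11 hq.le) hqρ) (by
        refine le_trans ?_ hρ'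
        have h0 : q * (ρ * (q * ρ / μ)) / μ ≤ q * ρ / μ := by gcongr
        calc ρ * (q * ρ / μ) * (q * (ρ * (q * ρ / μ)) / μ) ^ k
            ≤ ρ * (q * ρ / μ) * (q * ρ / μ) ^ k := by gcongr
          _ = ρ * (q * ρ / μ) ^ (k + 1) := by ring)
    refine ⟨A', fun K X t1 hS hX hB t ht w => ?_⟩
    refine hA' K X t1 hS (fun s hs v => ?_) hB t ht w
    rcases v with _ | ⟨c, u⟩
    · have h1 := hX s hs []
      simp only [List.length_nil, pow_zero, mul_one] at h1 ⊢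
      have : 0 ≤ |B (ρ * (q * ρ / μ))| + A ^ 2 / (ν * ρ ^ 2) := by positivity
      linarith
    · have h1 := one hν hμ hq hρ hS hX s hs c u
      rw [List.length_cons]
      have h2 := hB (ρ * (q * ρ / μ)) hρ10 (c :: u)
      rw [List.length_cons] at h2
      have h3 : Real.exp (-(ν * μ ^ (u.length + 1) * (s - t1))) ≤ 1 := by
        rw [Real.exp_le_one_iff, neg_nonpos]
        have h4 : 0 ≤ s - t1 := by linarith
        positivity
      have h5 : B (ρ * (q * ρ / μ)) * (ρ * (q * ρ / μ)) ^ (u.length + 1) ≤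
          |B (ρ * (q * ρ / μ))| * (ρ * (q * ρ / μ)) ^ (u.length + 1) := by
        gcongr
        exact le_abs_self _
      have h6 : Real.exp (-(ν * μ ^ (u.length + 1) * (s - t1))) * X t1 (c :: u) ≤
          |B (ρ * (q * ρ / μ))| * (ρ * (q * ρ / μ)) ^ (u.length + 1) := by
        calc Real.exp (-(ν * μ ^ (u.length + 1) * (s - t1))) * X t1 (c :: u)
            ≤ 1 * X t1 (c :: u) := mul_le_mul_of_nonneg_right h3 (hS.1 t1 le_rfl _)
          _ ≤ _ := by linarith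
      have h7 : 0 ≤ A * (ρ * (q * ρ / μ)) ^ (u.length + 1) := by positivity
      rw [hA1]
      nlinarith

theorem main0 : S_boot0 := by
  intro ν μ q A ρ ρ' B hν hμ hq hA hρ hqρ hρ'
  have hμ0 : 0 < μ := by linarith
  have hη0 : 0 < q * ρ / μ := by positivity
  have hη1 : q * ρ / μ < 1 := by rwa [div_lt_one hμ0]
  obtain ⟨k, hk⟩ := exists_pow_lt_of_lt_one (show 0 < ρ' / ρ by positivity) hη1
  refine boot0_ind hν hμ hq k A ρ ρ' hA hρ hqρ ?_
  rw [lt_div_iff₀ hρ] at hk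
  linarith

end Pool.Agent.W479.DyBoot
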