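import Mathlib

/-! Combinatorial lemma: functions on the symmetric group killed by symmetrisation over
subsets of `a+1` positions are spanned by the signed colour functions. -/

set_option autoImplicit false
set_option linter.all false

namespace Pool.Agent.W479.Alg

open Finset Equiv

variable {n : ℕ}

/-- `f` is killed by symmetrisation over every set of `a+1` positions. -/
def Killed {M : Type*} [AddCommGroup M] (a : ℕ) (f : Perm (Fin n) → M) : Prop :=
  ∀ (A : Finset (Fin n)), A.card = a + 1 → ∀ σ : Perm (Fin n),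
    ∑ ρ : Perm {x // x ∈ A}, f (σ * Perm.ofSubtype ρ) = 0

/-- signed colour function -/
def colF {a : ℕ} (c c' : Fin n → Fin a) (τ : Perm (Fin n)) : ℤ :=
  if c' = c ∘ τ then (Perm.sign τ : ℤ) else 0

theorem colF_killed {a : ℕ} (c c' : Fin n → Fin a) : Killed a (colF c c') := by
  intro A hA σ
  obtain ⟨i, hi, j, hj, hij, hc⟩ : ∃ i ∈ A, ∃ j ∈ A, i ≠ j ∧ c' i = c' j := by
    have := Finset.exists_ne_map_eq_of_card_lt_of_maps_to (s := A) (t := (univ : Finset (Fin a)))
      (f := c') (by simp [hA]) (by intro x _; simp)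
    obtain ⟨i, hi, j, hj, hij, h⟩ := this
    exact ⟨i, hi, j, hj, hij, h⟩
  let s : Perm {x // x ∈ A} := Equiv.swap ⟨i, hi⟩ ⟨j, hj⟩
  have hs : Perm.ofSubtype s = Equiv.swap i j := by
    simp [s]
  have hss : c' ∘ (Equiv.swap i j) = c' := by
    funext x
    simp only [Function.comp]
    by_cases hxi : x = i
    · rw [hxi, Equiv.swap_apply_left, hc]
    by_cases hxj : x = j
    · rw [hxj, Equiv.swap_apply_right, hc]
    rw [Equiv.swap_apply_of_ne_of_ne hxi hxj]
  have key : ∀ τ : Perm (Fin n), colF c c' (τ * Equiv.swap i j) = - colF c c' τ := by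
    intro τ
    unfold colF
    have h1 : (c' = c ∘ (τ * Equiv.swap i j : Perm (Fin n))) ↔ (c' = c ∘ τ) := by
      have h2 : c ∘ ((τ * Equiv.swap i j : Perm (Fin n)) : Fin n → Fin n) = (c ∘ τ) ∘ (Equiv.swap i j) := by
        funext x; simp [Perm.mul_apply]
      rw [h2]
      constructor
      · intro h
        have h3 : c' ∘ (Equiv.swap i j) = ((c ∘ τ) ∘ (Equiv.swap i j)) ∘ (Equiv.swap i j) := by rw [← h]
        rw [hss] at h3
        rw [h3]
        funext x; simp
      · intro h
        rw [← h, hss]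
    by_cases h : c' = c ∘ τ
    · rw [if_pos h, if_pos (h1.2 h)]
      simp [Perm.sign_swap hij]
    · rw [if_neg h, if_neg (fun h' => h (h1.1 h'))]
      simp
  have h0 : ∑ ρ : Perm {x // x ∈ A}, colF c c' (σ * Perm.ofSubtype ρ)
      = ∑ ρ : Perm {x // x ∈ A}, - colF c c' (σ * Perm.ofSubtype ρ) := by
    rw [← Equiv.sum_comp (Equiv.mulRight s)]
    refine Finset.sum_congr rfl fun ρ _ => ?_
    rw [← key, Equiv.coe_mulRight, map_mul, hs, mul_assoc]
  rw [Finset.sum_neg_distrib] at h0
  omega

theorem Killed.sub {M : Type*} [AddCommGroup M] {a : ℕ} {f g : Perm (Fin n) → M}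
    (hf : Killed a f) (hg : Killed a g) : Killed a (fun τ => f τ - g τ) := by
  intro A hA σ
  rw [Finset.sum_sub_distrib, hf A hA σ, hg A hA σ, sub_zero]

theorem Killed.smul {M : Type*} [AddCommGroup M] {a : ℕ} {f : Perm (Fin n) → ℤ}
    (hf : Killed a f) (m : M) : Killed a (fun τ => f τ • m) := by
  intro A hA σ
  rw [← Finset.sum_smul, hf A hA σ, zero_smul]

/-- `s` is a set of positions on which `σ` decreases -/
def Dec (σ : Perm (Fin n)) (s : Finset (Fin n)) : Prop := ∀ i ∈ s, ∀ j ∈ s, i < j → σ j < σ i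

/-- lexicographic order of permutations -/
def LexLT (σ τ : Perm (Fin n)) : Prop := ∃ i, (∀ j, j < i → σ j = τ j) ∧ σ i < τ i

def key (σ : Perm (Fin n)) : Lex (Fin n → Fin n) := toLex (σ : Fin n → Fin n)

theorem lexLT_iff (σ τ : Perm (Fin n)) : LexLT σ τ ↔ key σ < key τ := Iff.rfl

theorem key_inj {σ τ : Perm (Fin n)} (h : key σ = key τ) : σ = τ := by
  have : (σ : Fin n → Fin n) = τ := toLex.injective h
  exact DFunLike.coe_injective this

theorem exists_first {π : Perm (Fin n)} (hπ : π ≠ 1) :
    ∃ i, π i ≠ i ∧ (∀ j, j < i → π j = j) ∧ i < π i := by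
  have hne : (univ.filter fun i => π i ≠ i).Nonempty := by
    by_contra h
    rw [Finset.not_nonempty_iff_eq_empty, Finset.filter_eq_empty_iff] at h
    apply hπ
    ext i
    have := h (Finset.mem_univ i)
    push Not at this
    rw [this]; rfl
  obtain ⟨i, hi, hmin⟩ := Finset.exists_min_image _ id hne
  rw [Finset.mem_filter] at hi
  have h1 : ∀ j, j < i → π j = j := by
    intro j hj
    by_contra hc
    have := hmin j (Finset.mem_filter.2 ⟨Finset.mem_univ _, hc⟩)
    exact absurd hj (not_lt.2 this)
  refine ⟨i, hi.2, h1, ?_⟩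
  rcases lt_trichotomy i (π i) with h | h | h
  · exact h
  · exact absurd h.symm hi.2
  · have := h1 _ h
    exact absurd (π.injective this) hi.2

theorem lex_of_dec {σ : Perm (Fin n)} {A : Finset (Fin n)} (hA : Dec σ A) (ρ : Perm {x // x ∈ A})
    (hρ : ρ ≠ 1) : key (σ * Perm.ofSubtype ρ) < key σ := by
  rw [← lexLT_iff]
  have h1 : Perm.ofSubtype ρ ≠ 1 := by
    intro h
    apply hρ
    apply Perm.ofSubtype_injective
    rw [h, map_one]
  obtain ⟨i, hi, hj, hlt⟩ := exists_first h1
  refine ⟨i, fun j hji => ?_, ?_⟩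
  · rw [Perm.mul_apply, hj j hji]
  · rw [Perm.mul_apply]
    have hiA : i ∈ A := by
      by_contra hc
      exact hi (Perm.ofSubtype_apply_of_not_mem ρ hc)
    have hmem : Perm.ofSubtype ρ i ∈ A := by
      rw [Perm.ofSubtype_apply_of_mem ρ hiA]
      exact (ρ _).2
    exact hA i hiA _ hmem hlt

theorem card_le_of_min {M : Type*} [AddCommGroup M] {a : ℕ} {f : Perm (Fin n) → M}
    (hf : Killed a f) {σ : Perm (Fin n)} (hσ : f σ ≠ 0) (hmin : ∀ τ, key τ < key σ → f τ = 0)
    (s : Finset (Fin n)) (hs : Dec σ s) : s.card ≤ a := by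
  by_contra hc
  push Not at hc
  obtain ⟨A, hAs, hA⟩ := Finset.exists_subset_card_eq (s := s) (n := a + 1) (by omega)
  have hAd : Dec σ A := fun i hi j hj h => hs i (hAs hi) j (hAs hj) h
  have h1 := hf A hA σ
  rw [Finset.sum_eq_single (1 : Perm {x // x ∈ A})] at h1
  · rw [map_one, mul_one] at h1
    exact hσ h1
  · intro ρ _ hρ
    exact hmin _ (lex_of_dec hAd ρ hρ)
  · intro h; exact absurd (Finset.mem_univ _) h

open Classical in
/-- length of the longest decreasing chain of positions ending at `i` -/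
noncomputable def len (σ : Perm (Fin n)) (i : Fin n) : ℕ :=
  (univ.filter fun s : Finset (Fin n) => i ∈ s ∧ (∀ j ∈ s, j ≤ i) ∧ Dec σ s).sup card

theorem len_pos (σ : Perm (Fin n)) (i : Fin n) : 1 ≤ len σ i := by
  classical
  unfold len
  have : ({i} : Finset (Fin n)) ∈ (univ.filter fun s : Finset (Fin n) => i ∈ s ∧ (∀ j ∈ s, j ≤ i) ∧ Dec σ s) := by
    rw [Finset.mem_filter]
    refine ⟨Finset.mem_univ _, by simp, by simp, ?_⟩
    intro x hx y hy hxy
    rw [Finset.mem_singleton] at hx hy
    subst hx; subst hy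
    exact absurd hxy (lt_irrefl _)
  have h := Finset.le_sup (f := card) this
  simpa using h

theorem len_le (σ : Perm (Fin n)) (i : Fin n) {a : ℕ} (h : ∀ s, Dec σ s → s.card ≤ a) : len σ i ≤ a := by
  classical
  unfold len
  apply Finset.sup_le
  intro s hs
  rw [Finset.mem_filter] at hs
  exact h s hs.2.2.2

theorem exists_len (σ : Perm (Fin n)) (i : Fin n) :
    ∃ s : Finset (Fin n), i ∈ s ∧ (∀ j ∈ s, j ≤ i) ∧ Dec σ s ∧ s.card = len σ i := by
  classical
  have hne : (univ.filter fun s : Finset (Fin n) => i ∈ s ∧ (∀ j ∈ s, j ≤ i) ∧ Dec σ s).Nonempty := by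
    refine ⟨{i}, ?_⟩
    rw [Finset.mem_filter]
    refine ⟨Finset.mem_univ _, by simp, by simp, ?_⟩
    intro x hx y hy hxy
    rw [Finset.mem_singleton] at hx hy
    subst hx; subst hy
    exact absurd hxy (lt_irrefl _)
  obtain ⟨s, hs, h⟩ := Finset.exists_mem_eq_sup _ hne card
  rw [Finset.mem_filter] at hs
  exact ⟨s, hs.2.1, hs.2.2.1, hs.2.2.2, h.symm⟩

theorem len_lt {σ : Perm (Fin n)} {i j : Fin n} (hij : i < j) (h : σ j < σ i) : len σ i < len σ j := by
  classical
  obtain ⟨s, h1, h2, h3, h4⟩ := exists_len σ i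
  have hj : j ∉ s := fun hj => absurd (h2 j hj) (not_le.2 hij)
  have h5 : insert j s ∈ (univ.filter fun s : Finset (Fin n) => j ∈ s ∧ (∀ l ∈ s, l ≤ j) ∧ Dec σ s) := by
    rw [Finset.mem_filter]
    refine ⟨Finset.mem_univ _, Finset.mem_insert_self _ _, ?_, ?_⟩
    · intro l hl
      rcases Finset.mem_insert.1 hl with rfl | hl
      · exact le_rfl
      · exact (h2 l hl).trans hij.le
    · intro x hx y hy hxy
      rcases Finset.mem_insert.1 hx with hx' | hx'
      · rcases Finset.mem_insert.1 hy with hy' | hy'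
        · rw [hx', hy'] at hxy
          exact absurd hxy (lt_irrefl _)
        · rw [hx'] at hxy
          exact absurd (hxy.trans_le (h2 y hy')) (not_lt.2 hij.le)
      · rcases Finset.mem_insert.1 hy with hy' | hy'
        · rw [hy']
          rcases eq_or_lt_of_le (h2 x hx') with hxi | hlt
          · rw [hxi]; exact h
          · exact h.trans (h3 x hx' i h1 hlt)
        · exact h3 x hx' y hy' hxy
  have h6 := Finset.le_sup (f := card) h5
  rw [Finset.card_insert_of_notMem hj, h4] at h6
  unfold len at *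
  omega

/-- the colour -/
noncomputable def col (σ : Perm (Fin n)) {a : ℕ} (h : ∀ s, Dec σ s → s.card ≤ a) (i : Fin n) : Fin a :=
  ⟨len σ i - 1, by have := len_pos σ i; have := len_le σ i h; omega⟩

theorem col_mono {σ : Perm (Fin n)} {a : ℕ} (h : ∀ s, Dec σ s → s.card ≤ a) {i j : Fin n}
    (hij : i < j) (hc : col σ h i = col σ h j) : σ i < σ j := by
  have h1 := len_pos σ i
  have h2 := len_pos σ j
  have h3 : len σ i = len σ j := by
    have := congrArg Fin.val hc
    simp only [col] at this
    omega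
  rcases lt_trichotomy (σ i) (σ j) with h4 | h4 | h4
  · exact h4
  · exact absurd (σ.injective h4) hij.ne
  · have := len_lt hij h4
    omega

theorem colF_support {σ : Perm (Fin n)} {a : ℕ} (h : ∀ s, Dec σ s → s.card ≤ a)
    (τ : Perm (Fin n)) (hτ : colF (col σ h ∘ σ.symm) (col σ h) τ ≠ 0) : τ = σ ∨ key σ < key τ := by
  by_cases hst : τ = σ
  · left; exact hst
  right
  have hc : col σ h = (col σ h ∘ σ.symm) ∘ τ := by
    by_contra hc
    exact hτ (if_neg hc)
  have hπ : σ⁻¹ * τ ≠ 1 := by
    intro h1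
    apply hst
    exact (inv_mul_eq_one.1 h1).symm
  obtain ⟨i, hi, hj, hlt⟩ := exists_first hπ
  rw [← lexLT_iff]
  refine ⟨i, fun j hji => ?_, ?_⟩
  · have := hj j hji
    rw [Perm.mul_apply] at this
    rw [← Perm.inv_eq_iff_eq.1 this]
  · have h1 : τ i = σ ((σ⁻¹ * τ) i) := by simp
    rw [h1]
    apply col_mono h hlt
    have := congrFun hc i
    simpa using this

theorem colF_self {σ : Perm (Fin n)} {a : ℕ} (h : ∀ s, Dec σ s → s.card ≤ a) :
    colF (col σ h ∘ σ.symm) (col σ h) σ = (Perm.sign σ : ℤ) := by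
  unfold colF
  rw [if_pos]
  funext i; simp

/-- Span of the colour functions with coefficients in `M`. -/
def Sp (M : Type*) [AddCommGroup M] (n a : ℕ) : AddSubgroup (Perm (Fin n) → M) :=
  AddSubgroup.closure {f | ∃ (c c' : Fin n → Fin a) (m : M), f = fun τ => colF c c' τ • m}

theorem mem_Sp_of_killed {M : Type*} [AddCommGroup M] {a : ℕ} (U : Finset (Perm (Fin n))) :
    (∀ σ ∈ U, ∀ τ, key σ ≤ key τ → τ ∈ U) →
    ∀ f : Perm (Fin n) → M, Killed a f → (∀ τ, f τ ≠ 0 → τ ∈ U) → f ∈ Sp M n a := by
  classical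
  induction U using Finset.strongInduction with
  | H U ih =>
    intro hU f hf hsupp
    by_cases hf0 : f = 0
    · rw [hf0]; exact zero_mem _
    have hne : (univ.filter fun τ => f τ ≠ 0).Nonempty := by
      by_contra hc
      rw [Finset.not_nonempty_iff_eq_empty, Finset.filter_eq_empty_iff] at hc
      apply hf0
      funext τ
      have := hc (Finset.mem_univ τ)
      push Not at this
      exact this
    obtain ⟨σ, hσ, hmin⟩ := Finset.exists_min_image _ key hne
    rw [Finset.mem_filter] at hσ
    have hmin' : ∀ τ, key τ < key σ → f τ = 0 := by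
      intro τ hτ
      by_contra hc
      exact absurd hτ (not_lt.2 (hmin τ (Finset.mem_filter.2 ⟨Finset.mem_univ _, hc⟩)))
    have hcard := card_le_of_min hf hσ.2 hmin'
    let F : Perm (Fin n) → ℤ := colF (col σ hcard ∘ σ.symm) (col σ hcard)
    let m : M := (Perm.sign σ : ℤ) • f σ
    let f' : Perm (Fin n) → M := fun τ => f τ - F τ • m
    have hf' : Killed a f' := hf.sub ((colF_killed _ _).smul m)
    have hUσ : σ ∈ U := hsupp σ hσ.2
    let U' := U.filter fun τ => key σ < key τ
    have hU' : U' ⊂ U := by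
      rw [Finset.ssubset_iff_of_subset (Finset.filter_subset _ _)]
      refine ⟨σ, hUσ, ?_⟩
      rw [Finset.mem_filter]
      exact fun h => lt_irrefl _ h.2
    have h1 : f' ∈ Sp M n a := by
      refine ih U' hU' ?_ f' hf' ?_
      · intro τ hτ τ' hle
        rw [Finset.mem_filter] at hτ ⊢
        exact ⟨hU τ hτ.1 τ' hle, hτ.2.trans_le hle⟩
      · intro τ hτ
        have h2 : τ ≠ σ := by
          rintro rfl
          apply hτ
          change f τ - F τ • m = 0
          have : F τ = (Perm.sign τ : ℤ) := colF_self hcard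
          rw [this]
          change f τ - (Perm.sign τ : ℤ) • ((Perm.sign τ : ℤ) • f τ) = 0
          rw [smul_smul]
          have h3 : (Perm.sign τ : ℤ) * (Perm.sign τ : ℤ) = 1 := by
            rw [← Units.val_mul, Int.units_mul_self]; rfl
          rw [h3, one_smul, sub_self]
        have h3 : key σ < key τ := by
          by_contra hc
          have hlt : key τ < key σ := by
            rcases lt_trichotomy (key τ) (key σ) with h | h | h
            · exact h
            · exact absurd (key_inj h) h2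
            · exact absurd h hc
          apply hτ
          change f τ - F τ • m = 0
          rw [hmin' τ hlt]
          have : F τ = 0 := by
            by_contra hF
            rcases colF_support hcard τ hF with h | h
            · exact h2 h
            · exact hc h
          rw [this, zero_smul, sub_zero]
        rw [Finset.mem_filter]
        exact ⟨hU σ hUσ τ h3.le, h3⟩
    have h2 : (fun τ => F τ • m) ∈ Sp M n a :=
      AddSubgroup.subset_closure ⟨_, _, m, rfl⟩
    have h3 : f = f' + fun τ => F τ • m := by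
      funext τ
      simp [f']
    rw [h3]
    exact add_mem h1 h2

theorem mem_Sp {M : Type*} [AddCommGroup M] {a : ℕ} {f : Perm (Fin n) → M} (hf : Killed a f) :
    f ∈ Sp M n a :=
  mem_Sp_of_killed univ (by intros; simp) f hf (by intros; simp)

/-- The subgroup of killed functions. -/
def KillSub (M : Type*) [AddCommGroup M] (n b : ℕ) : AddSubgroup (Perm (Fin n) → M) where
  carrier := {f | Killed b f}
  zero_mem' := by intro A hA σ; simp
  add_mem' := by
    intro f g hf hg A hA σ
    simp only [Pi.add_apply]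
    rw [Finset.sum_add_distrib, hf A hA σ, hg A hA σ, add_zero]
  neg_mem' := by
    intro f hf A hA σ
    simp only [Pi.neg_apply]
    rw [Finset.sum_neg_distrib, hf A hA σ, neg_zero]

/-- The key algebraic lemma. -/
theorem main {M : Type*} [AddCommGroup M] {a b : ℕ} (hn : a * b < n)
    (B : Perm (Fin n) → Perm (Fin n) → M)
    (h1 : ∀ τ, Killed a (fun σ => B σ τ)) (h2 : ∀ σ, Killed b (B σ)) :
    ∑ σ : Perm (Fin n), (Perm.sign σ : ℤ) • B σ σ = 0 := by
  -- diagonal functional
  let D : (Perm (Fin n) → Perm (Fin n) → M) →+ M :=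
    { toFun := fun B => ∑ σ : Perm (Fin n), (Perm.sign σ : ℤ) • B σ σ
      map_zero' := by simp
      map_add' := by intro x y; simp [Finset.sum_add_distrib] }
  have hbase : ∀ (c c' : Fin n → Fin a) (d d' : Fin n → Fin b) (m : M),
      ∑ σ : Perm (Fin n), (Perm.sign σ : ℤ) • (colF c c' σ • (colF d d' σ • m)) = 0 := by
    intro c c' d d' m
    obtain ⟨i, j, hij, hcd⟩ : ∃ i j : Fin n, i ≠ j ∧ (c i, d i) = (c j, d j) := by
      have := Fintype.exists_ne_map_eq_of_card_lt (fun i : Fin n => (c i, d i)) (by simpa using hn)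
      exact this
    rw [Prod.mk.injEq] at hcd
    have hsw : ∀ {α : Type} (e : Fin n → α) (he : e i = e j), e ∘ (Equiv.swap i j) = e := by
      intro α e he
      funext x
      simp only [Function.comp]
      by_cases hxi : x = i
      · rw [hxi, Equiv.swap_apply_left, he]
      by_cases hxj : x = j
      · rw [hxj, Equiv.swap_apply_right, he]
      rw [Equiv.swap_apply_of_ne_of_ne hxi hxj]
    have hkey : ∀ {a : ℕ} (e e' : Fin n → Fin a) (he : e i = e j) (σ : Perm (Fin n)),
        colF e e' (Equiv.swap i j * σ) = - colF e e' σ := by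
      intro a e e' he σ
      unfold colF
      have h3 : e ∘ ((Equiv.swap i j * σ : Perm (Fin n)) : Fin n → Fin n) = e ∘ σ := by
        have := hsw e he
        funext x
        simp only [Function.comp, Perm.mul_apply]
        exact congrFun this (σ x)
      rw [h3]
      split_ifs
      · simp [Perm.sign_swap hij]
      · simp
    have h0 : ∑ σ : Perm (Fin n), ((Perm.sign σ : ℤ) * (colF c c' σ * colF d d' σ))
        = ∑ σ : Perm (Fin n), - ((Perm.sign σ : ℤ) * (colF c c' σ * colF d d' σ)) := by
      rw [← Equiv.sum_comp (Equiv.mulLeft (Equiv.swap i j))]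
      refine Finset.sum_congr rfl fun σ _ => ?_
      rw [Equiv.coe_mulLeft, hkey c c' hcd.1, hkey d d' hcd.2]
      simp [Perm.sign_swap hij]
    rw [Finset.sum_neg_distrib] at h0
    have h4 : ∑ σ : Perm (Fin n), ((Perm.sign σ : ℤ) * (colF c c' σ * colF d d' σ)) = 0 := by omega
    have h5 : ∑ σ : Perm (Fin n), (Perm.sign σ : ℤ) • (colF c c' σ • (colF d d' σ • m))
        = (∑ σ : Perm (Fin n), ((Perm.sign σ : ℤ) * (colF c c' σ * colF d d' σ))) • m := by
      rw [Finset.sum_smul]
      refine Finset.sum_congr rfl fun σ _ => ?_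
      rw [smul_smul, smul_smul, mul_assoc]
    rw [h5, h4, zero_smul]
  -- second step: for a killed function `h` in place of `m`
  have hstep : ∀ (c c' : Fin n → Fin a) (h : Perm (Fin n) → M), Killed b h →
      ∑ σ : Perm (Fin n), (Perm.sign σ : ℤ) • (colF c c' σ • h σ) = 0 := by
    intro c c' h hh
    have hmem := mem_Sp hh
    let E : (Perm (Fin n) → M) →+ M :=
      { toFun := fun h => ∑ σ : Perm (Fin n), (Perm.sign σ : ℤ) • (colF c c' σ • h σ)
        map_zero' := by simp
        map_add' := by intro x y; simp [Finset.sum_add_distrib] }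
    have hle : Sp M n b ≤ E.ker := by
      unfold Sp
      rw [AddSubgroup.closure_le]
      rintro _ ⟨d, d', m, rfl⟩
      exact hbase c c' d d' m
    exact hle hmem
  let E : (Perm (Fin n) → KillSub M n b) →+ M :=
    { toFun := fun h => ∑ σ : Perm (Fin n), (Perm.sign σ : ℤ) • (h σ).1 σ
      map_zero' := by simp
      map_add' := by intro x y; simp [Finset.sum_add_distrib] }
  have hle : Sp (KillSub M n b) n a ≤ E.ker := by
    unfold Sp
    rw [AddSubgroup.closure_le]
    rintro _ ⟨c, c', m, rfl⟩
    have := hstep c c' m.1 m.2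
    simpa [E] using this
  have hB : Killed a (fun σ => (⟨B σ, h2 σ⟩ : KillSub M n b)) := by
    intro A hA σ
    apply Subtype.ext
    rw [AddSubgroup.val_finset_sum]
    funext τ
    rw [Finset.sum_apply]
    exact h1 τ A hA σ
  have := hle (mem_Sp hB)
  exact this

end Pool.Agent.W479.Alg
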