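import Pool.Agent.W479.Alg

/-! Algebra for symmetric squares. -/

set_option autoImplicit false
set_option linter.all false

namespace Pool.Agent.W479.Alg

open Finset Equiv

/-- the permutation `c ↦ c xor b` of the booleans -/
def flp (b : Bool) : Perm Bool := if b then Equiv.swap false true else 1

theorem flp_apply (b c : Bool) : flp b c = xor c b := by
  cases b <;> cases c <;> rfl

theorem sign_flp (b : Bool) : Perm.sign (flp b) = if b then -1 else 1 := by
  cases b
  · simp [flp]
  · simp [flp, Perm.sign_swap]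

/-- element of the wreath product -/
def wr {n : ℕ} (σ : Perm (Fin n)) (ε : Fin n → Bool) : Perm (Fin n × Bool) :=
  (Equiv.prodCongrLeft (fun _ : Bool => σ)) * (Equiv.prodCongrRight (fun i => flp (ε i)))

theorem wr_apply {n : ℕ} (σ : Perm (Fin n)) (ε : Fin n → Bool) (i : Fin n) (b : Bool) :
    wr σ ε (i, b) = (σ i, xor b (ε i)) := by
  unfold wr
  rw [Perm.mul_apply]
  simp [Equiv.prodCongrLeft, Equiv.prodCongrRight, flp_apply]

theorem wr_mul {n : ℕ} (σ₀ σ : Perm (Fin n)) (ε₀ ε : Fin n → Bool) :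
    wr σ₀ ε₀ * wr σ ε = wr (σ₀ * σ) (fun i => xor (ε i) (ε₀ (σ i))) := by
  ext ⟨i, b⟩
  · rw [Perm.mul_apply, wr_apply, wr_apply, wr_apply]; rfl
  · rw [Perm.mul_apply, wr_apply, wr_apply, wr_apply]
    simp [Bool.xor_assoc]

theorem sign_wr {n : ℕ} (σ : Perm (Fin n)) (ε : Fin n → Bool) :
    Perm.sign (wr σ ε) = ∏ i, (if ε i then (-1 : ℤˣ) else 1) := by
  unfold wr
  rw [map_mul, Perm.sign_prodCongrLeft, Perm.sign_prodCongrRight]
  simp only [sign_flp]
  rw [Finset.prod_const, Finset.card_univ, Fintype.card_bool, Int.units_sq, one_mul]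

/-- shift of the index set by an element of the wreath product -/
def shf {n : ℕ} (σ₀ : Perm (Fin n)) (ε₀ : Fin n → Bool) :
    Perm (Perm (Fin n) × (Fin n → Bool)) where
  toFun p := (σ₀ * p.1, fun i => xor (p.2 i) (ε₀ (p.1 i)))
  invFun p := (σ₀⁻¹ * p.1, fun i => xor (p.2 i) (ε₀ ((σ₀⁻¹ * p.1) i)))
  left_inv := by
    rintro ⟨σ, ε⟩
    simp [Bool.xor_assoc]
  right_inv := by
    rintro ⟨σ, ε⟩
    simp [Bool.xor_assoc]

theorem colF_mul_left {N a : ℕ} (c c' : Fin N → Fin a) (π τ : Perm (Fin N)) (h : ∀ x, c (π x) = c x) :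
    colF c c' (π * τ) = (Perm.sign π : ℤ) * colF c c' τ := by
  unfold colF
  have h3 : (fun x => c ((π * τ : Perm (Fin N)) x)) = fun x => c (τ x) := by
    funext x
    rw [Perm.mul_apply, h]
  change (if c' = (fun x => c ((π * τ : Perm (Fin N)) x)) then _ else _) =
    _ * (if c' = (fun x => c (τ x)) then _ else _)
  rw [h3]
  split_ifs
  · simp
  · simp

theorem exists_cancel {n g : ℕ} (hn : g * (g - 1) / 2 < n) (c : Fin n × Bool → Fin g) :
    ∃ (σ₀ : Perm (Fin n)) (ε₀ : Fin n → Bool), (∀ x, c (wr σ₀ ε₀ x) = c x) ∧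
      (Perm.sign σ₀ : ℤ) * (Perm.sign (wr σ₀ ε₀) : ℤ) = -1 := by
  classical
  by_cases h1 : ∃ i, c (i, false) = c (i, true)
  · obtain ⟨i, hi⟩ := h1
    refine ⟨1, fun j => decide (j = i), ?_, ?_⟩
    · rintro ⟨j, b⟩
      rw [wr_apply]
      by_cases hj : j = i
      · subst hj
        cases b <;> simp [hi]
      · simp [hj]
    · rw [sign_wr]
      simp
  · push Not at h1
    let s : Fin n → Finset (Fin g) := fun i => {c (i, false), c (i, true)}
    obtain ⟨i, -, j, -, hij, hs⟩ := Finset.exists_ne_map_eq_of_card_lt_of_maps_to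
      (s := (univ : Finset (Fin n))) (t := (univ : Finset (Fin g)).powersetCard 2) (f := s) (by
        rw [Finset.card_powersetCard, Finset.card_univ, Finset.card_univ, Fintype.card_fin,
          Fintype.card_fin, Nat.choose_two_right]
        exact hn) (by
        intro i _
        rw [Finset.mem_coe, Finset.mem_powersetCard]
        exact ⟨Finset.subset_univ _, Finset.card_pair (h1 i)⟩)
    have hcase : (c (i, false) = c (j, false) ∧ c (i, true) = c (j, true)) ∨
        (c (i, false) = c (j, true) ∧ c (i, true) = c (j, false)) := by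
      have e1 : c (i, false) ∈ s j := by rw [← hs]; simp [s]
      have e2 : c (i, true) ∈ s j := by rw [← hs]; simp [s]
      simp only [s, Finset.mem_insert, Finset.mem_singleton] at e1 e2
      have := h1 i
      rcases e1 with e1 | e1 <;> rcases e2 with e2 | e2
      · exact absurd (e1.trans e2.symm) this
      · exact Or.inl ⟨e1, e2⟩
      · exact Or.inr ⟨e1, e2⟩
      · exact absurd (e1.trans e2.symm) this
    rcases hcase with ⟨ha, hb⟩ | ⟨ha, hb⟩
    · refine ⟨Equiv.swap i j, fun _ => false, ?_, ?_⟩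
      · rintro ⟨l, b⟩
        rw [wr_apply]
        rcases eq_or_ne l i with rfl | hli
        · rw [Equiv.swap_apply_left]
          cases b <;> simp [ha, hb]
        rcases eq_or_ne l j with rfl | hlj
        · rw [Equiv.swap_apply_right]
          cases b <;> simp [ha, hb]
        rw [Equiv.swap_apply_of_ne_of_ne hli hlj]
        simp
      · rw [sign_wr, Perm.sign_swap hij]
        simp
    · refine ⟨Equiv.swap i j, fun l => decide (l = i ∨ l = j), ?_, ?_⟩
      · rintro ⟨l, b⟩
        rw [wr_apply]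
        rcases eq_or_ne l i with rfl | hli
        · rw [Equiv.swap_apply_left]
          cases b <;> simp [ha, hb]
        rcases eq_or_ne l j with rfl | hlj
        · rw [Equiv.swap_apply_right]
          cases b <;> simp [ha, hb]
        rw [Equiv.swap_apply_of_ne_of_ne hli hlj]
        simp [hli, hlj]
      · rw [sign_wr, Perm.sign_swap hij]
        have h5 : ∏ l, (if decide (l = i ∨ l = j) = true then (-1 : ℤˣ) else 1) = 1 := by
          have h6 : ∀ l : Fin n, (if decide (l = i ∨ l = j) = true then (-1 : ℤˣ) else 1)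
              = (if l = i then -1 else 1) * (if l = j then -1 else 1) := by
            intro l
            rcases eq_or_ne l i with rfl | hli
            · simp [hij]
            rcases eq_or_ne l j with rfl | hlj
            · simp [hli]
            simp [hli, hlj]
          rw [Finset.prod_congr rfl fun l _ => h6 l, Finset.prod_mul_distrib]
          simp
        rw [h5]
        simp

/-- The key algebraic lemma for symmetric squares. -/
theorem symMain {M : Type*} [AddCommGroup M] {n g N : ℕ} (e : Fin n × Bool ≃ Fin N)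
    (hn : g * (g - 1) / 2 < n) (B : Perm (Fin N) → M) (hB : Killed g B) :
    ∑ p : Perm (Fin n) × (Fin n → Bool), (Perm.sign p.1 : ℤ) • B (e.permCongr (wr p.1 p.2)) = 0 := by
  let E : (Perm (Fin N) → M) →+ M :=
    { toFun := fun B => ∑ p : Perm (Fin n) × (Fin n → Bool),
        (Perm.sign p.1 : ℤ) • B (e.permCongr (wr p.1 p.2))
      map_zero' := by simp
      map_add' := by intro x y; simp [Finset.sum_add_distrib] }
  suffices hle : Sp M N g ≤ E.ker from hle (mem_Sp hB)
  unfold Sp
  rw [AddSubgroup.closure_le]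
  rintro _ ⟨c, c', m, rfl⟩
  change ∑ p : Perm (Fin n) × (Fin n → Bool),
    (Perm.sign p.1 : ℤ) • (colF c c' (e.permCongr (wr p.1 p.2)) • m) = 0
  obtain ⟨σ₀, ε₀, h1, h2⟩ := exists_cancel hn (fun x => c (e x))
  have hS : ∑ p : Perm (Fin n) × (Fin n → Bool),
      (Perm.sign p.1 : ℤ) * colF c c' (e.permCongr (wr p.1 p.2)) =
      ∑ p : Perm (Fin n) × (Fin n → Bool),
      - ((Perm.sign p.1 : ℤ) * colF c c' (e.permCongr (wr p.1 p.2))) := by
    rw [← Equiv.sum_comp (shf σ₀ ε₀)]
    refine Finset.sum_congr rfl fun p _ => ?_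
    obtain ⟨σ, ε⟩ := p
    change (Perm.sign (σ₀ * σ) : ℤ) * colF c c' (e.permCongr (wr (σ₀ * σ) (fun i => xor (ε i) (ε₀ (σ i))))) = _
    rw [← wr_mul]
    have h3 : e.permCongr (wr σ₀ ε₀ * wr σ ε) = e.permCongr (wr σ₀ ε₀) * e.permCongr (wr σ ε) := by
      ext x
      simp [Perm.mul_apply]
    rw [h3, colF_mul_left]
    · rw [Perm.sign_permCongr, map_mul, Units.val_mul]
      linear_combination ((Perm.sign σ : ℤ) * colF c c' (e.permCongr (wr σ ε))) * h2
    · intro x
      have := h1 (e.symm x)
      simpa using this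
  rw [Finset.sum_neg_distrib] at hS
  have h4 : ∑ p : Perm (Fin n) × (Fin n → Bool),
      (Perm.sign p.1 : ℤ) * colF c c' (e.permCongr (wr p.1 p.2)) = 0 := by omega
  have h5 : ∑ p : Perm (Fin n) × (Fin n → Bool),
      (Perm.sign p.1 : ℤ) • (colF c c' (e.permCongr (wr p.1 p.2)) • m) =
      (∑ p : Perm (Fin n) × (Fin n → Bool),
      (Perm.sign p.1 : ℤ) * colF c c' (e.permCongr (wr p.1 p.2))) • m := by
    rw [Finset.sum_smul]
    refine Finset.sum_congr rfl fun p _ => ?_
    rw [smul_smul]
  rw [h5, h4, zero_smul]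

end Pool.Agent.W479.Alg
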