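import Pool.Agent.W479.Rat

/-! Curves: degree one places, genus, effective divisors. -/

set_option autoImplicit false
set_option linter.all false

namespace Pool.Agent.W479

open FF

universe u v w

variable {k F : Type u} [Field k] [CharZero k] [Field F] [Algebra k F] [IsFF k F]

theorem deg_eq_one [IsAlgClosed k] (P : Place k F) : P.deg = 1 := by
  unfold Place.deg
  have h1 : Algebra.IsIntegral k P.RF := Algebra.IsIntegral.of_finite k P.RF
  have h2 := IsAlgClosed.algebraMap_bijective_of_isIntegral (k := k) (K := P.RF)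
  have e : k ≃ₗ[k] P.RF := LinearEquiv.ofBijective (Algebra.linearMap k P.RF) h2
  rw [← e.finrank_eq, Module.finrank_self]

theorem ddeg_eq [IsAlgClosed k] (D : Place k F →₀ ℤ) : ddeg D = D.sum fun _ m => m := by
  unfold ddeg
  refine Finsupp.sum_congr fun P _ => ?_
  rw [deg_eq_one]; simp

theorem cdeg_eq [IsAlgClosed k] (D : Place k F →₀ ℤ) : cdeg D = ddeg D := (ddeg_eq D).symm

variable (k F) in
theorem genus_bdd [IsAlgClosed k] :
    BddAbove {m : ℕ | ∃ D : Place k F →₀ ℤ, (m : ℤ) = cdeg D + 1 - ell D} := by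
  obtain ⟨γ, N, h1, h2⟩ := riemann k F
  refine ⟨(γ + 1).toNat, ?_⟩
  rintro m ⟨D, hD⟩
  rw [cdeg_eq] at hD
  have := h1 D
  omega

theorem le_genus [IsAlgClosed k] (D : Place k F →₀ ℤ) : ddeg D + 1 - ell D ≤ genus k F := by
  by_cases h : ddeg D + 1 - ell D ≤ 0
  · have : (0 : ℤ) ≤ genus k F := by positivity
    omega
  · push Not at h
    have h1 : (ddeg D + 1 - ell D).toNat ∈ {m : ℕ | ∃ D : Place k F →₀ ℤ, (m : ℤ) = cdeg D + 1 - ell D} := by
      refine ⟨D, ?_⟩
      rw [Int.toNat_of_nonneg h.le, cdeg_eq]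
    have h2 := le_csSup (genus_bdd k F) h1
    change (ddeg D + 1 - ell D).toNat ≤ genus k F at h2
    omega

theorem exists_effective [IsAlgClosed k] (D : Place k F →₀ ℤ) (h : (genus k F : ℤ) ≤ ddeg D) :
    ∃ f : F, f ≠ 0 ∧ 0 ≤ divisor k f + D := by
  have h1 := le_genus D
  obtain ⟨f, hf, hf0⟩ := exists_ne_zero_of_ell_pos (D := D) (by omega)
  exact ⟨f, hf0, (mem_LL' hf0).1 hf⟩

theorem exists_enum [IsAlgClosed k] (N : ℕ) (D : Place k F →₀ ℤ) (h0 : 0 ≤ D) (hd : ddeg D = N) :
    ∃ q : Fin N → Place k F, D = dsum q := by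
  induction N generalizing D with
  | zero =>
    refine ⟨Fin.elim0, ?_⟩
    unfold dsum
    rw [Finset.univ_eq_empty, Finset.sum_empty]
    rw [ddeg_eq] at hd
    have h1 : ∀ P ∈ D.support, D P = 0 := by
      have := (Finset.sum_eq_zero_iff_of_nonneg (s := D.support) (f := fun P => D P)
        (fun P _ => h0 P)).1 (by simpa [Finsupp.sum] using hd)
      exact this
    ext P
    by_cases hP : P ∈ D.support
    · exact h1 P hP
    · simpa using hP
  | succ N ih =>
    have hne : D ≠ 0 := by
      rintro rfl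
      rw [ddeg_zero] at hd
      push_cast at hd
      omega
    obtain ⟨P, hP⟩ : ∃ P, D P ≠ 0 := by
      by_contra hc
      push Not at hc
      exact hne (Finsupp.ext hc)
    have hP' : 1 ≤ D P := by
      have := h0 P
      simp only [Finsupp.coe_zero, Pi.zero_apply] at this
      omega
    obtain ⟨q, hq⟩ := ih (D - Finsupp.single P 1) (by
      intro Q
      rw [Finsupp.sub_apply]
      by_cases hQ : Q = P
      · subst hQ; simp; exact hP'
      · rw [Finsupp.single_eq_of_ne hQ]
        simpa using h0 Q) (by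
      rw [ddeg_sub, hd, ddeg_single, deg_eq_one]; push_cast; ring)
    refine ⟨Fin.cons P q, ?_⟩
    unfold dsum
    rw [Fin.sum_univ_succ]
    simp only [Fin.cons_zero, Fin.cons_succ]
    change D = Finsupp.single P 1 + dsum q
    rw [← hq]
    abel

/-- `genus + 1` points can be moved so that one of them is `o`. -/
theorem exists_move [IsAlgClosed k] {A : Type} [Fintype A] (hA : Fintype.card A = genus k F + 1)
    (x : A → Place k F) (o : Place k F) :
    ∃ q : A → Place k F, (∃ j, q j = o) ∧ dsum x - dsum q ∈ Rat (curveSys k F) := by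
  have hdeg : ddeg (dsum x) = (genus k F : ℤ) + 1 := by
    unfold dsum
    rw [ddeg_eq]
    have h1 : ((∑ j, Finsupp.single (x j) (1 : ℤ)).sum fun _ m => m)
        = ∑ j : A, (1 : ℤ) := by
      rw [← Finsupp.sum_finset_sum_index (by intro; rfl) (by intros; rfl)]
      refine Finset.sum_congr rfl fun j _ => ?_
      rw [Finsupp.sum_single_index rfl]
    rw [h1]
    simp [hA]
  obtain ⟨f, hf, hf0⟩ := exists_effective (dsum x - Finsupp.single o 1) (by
    rw [ddeg_sub, hdeg, ddeg_single, deg_eq_one]; push_cast; omega)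
  let E := divisor k f + (dsum x - Finsupp.single o 1) + Finsupp.single o 1
  have hE0 : 0 ≤ E := by
    apply add_nonneg hf0
    intro Q
    by_cases hQ : Q = o
    · subst hQ; simp
    · rw [Finsupp.single_eq_of_ne hQ]; simp
  have hEd : ddeg E = ((genus k F + 1 : ℕ) : ℤ) := by
    change ddeg (divisor k f + (dsum x - Finsupp.single o 1) + Finsupp.single o 1) = _
    rw [ddeg_add, ddeg_add, ddeg_sub, ddeg_divisor, hdeg]
    push_cast; ring
  obtain ⟨q, hq⟩ := exists_enum _ E hE0 hEd
  have e : A ≃ Fin (genus k F + 1) := Fintype.equivFinOfCardEq hA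
  have hqe : dsum (q ∘ e) = E := by
    rw [hq]
    unfold dsum
    rw [← Equiv.sum_comp e]; rfl
  refine ⟨q ∘ e, ?_, ?_⟩
  · by_contra hc
    push Not at hc
    have h1 : E o = 0 := by
      rw [← hqe]
      unfold dsum
      rw [Finsupp.finset_sum_apply]
      apply Finset.sum_eq_zero
      intro j _
      exact Finsupp.single_eq_of_ne (hc j).symm
    have h2 : E o = (divisor k f + (dsum x - Finsupp.single o 1) : Place k F →₀ ℤ) o + 1 := by
      change (divisor k f + (dsum x - Finsupp.single o 1) + Finsupp.single o 1 : Place k F →₀ ℤ) o = _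
      rw [Finsupp.add_apply, Finsupp.single_eq_same]
    have h3 := hf0 o
    rw [Finsupp.coe_zero, Pi.zero_apply] at h3
    omega
  · rw [hqe]
    have h1 : dsum x - E = - divisor k f := by
      change dsum x - (divisor k f + (dsum x - Finsupp.single o 1) + Finsupp.single o 1) = _
      abel
    rw [h1]
    exact neg_mem (principal_mem ⟨f, hf, rfl⟩)

end Pool.Agent.W479
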