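import Pool.Agent.Helper386.D5V.Helper386_FF_Riemann

/-! Definitions for Voisin's conjecture on products of curves. Points of a smooth projective curve
over an algebraically closed field are the places (normalised discrete valuations) of its function
field. -/

set_option autoImplicit false
set_option linter.all false

namespace Pool.Agent.W479

open FF

universe u

/-- The maps on points induced by the morphisms from the smooth projective curve with function
field `L` to the one with function field `F`: constant maps, and the maps induced by a `k`-embedding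
`τ : F → L` (the local ring at the image of `w` is the preimage of the local ring at `w`). -/
def IsMor {k L F : Type u} [Field k] [Field L] [Algebra k L] [Field F] [Algebra k F]
    (φ : Place k L → Place k F) : Prop :=
  (∃ P, ∀ w, φ w = P) ∨ ∃ τ : F →ₐ[k] L, ∀ w f, (φ w).Reg f ↔ w.Reg (τ f)

/-- The 0-cycles on `(C₁ × C₂)^n` that are rationally equivalent to zero: the subgroup generated by
the push-forwards of the divisors `div h`, `h` a nonzero rational function on a smooth projective
curve `Y` (function field `L`), under the morphisms `Y → (C₁ × C₂)^n`. -/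
noncomputable def RatTriv (k F₁ F₂ : Type u) [Field k] [CharZero k] [Field F₁] [Algebra k F₁]
    [Field F₂] [Algebra k F₂] (n : ℕ) :
    AddSubgroup ((Fin n → Place k F₁ × Place k F₂) →₀ ℤ) :=
  AddSubgroup.closure {z | ∃ (L : Type u) (_ : Field L) (_ : Algebra k L) (_ : IsFF k L)
    (φ : Fin n → Place k L → Place k F₁) (ψ : Fin n → Place k L → Place k F₂) (h : L),
    (∀ i, IsMor (φ i)) ∧ (∀ i, IsMor (ψ i)) ∧ h ≠ 0 ∧
      z = (divisor k h).mapDomain (fun w i => (φ i w, ψ i w))}

/-- The divisor `D` is the divisor of a nonzero rational function. -/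
def Principal {k F : Type u} [Field k] [CharZero k] [Field F] [Algebra k F] [IsFF k F]
    (D : Place k F →₀ ℤ) : Prop := ∃ f : F, f ≠ 0 ∧ D = divisor k f

/-- A 0-cycle on `C₁ × C₂` is Albanese-trivial: it has degree zero and its image in
`Alb (C₁ × C₂) = Pic⁰ C₁ × Pic⁰ C₂` vanishes. -/
def AlbTrivial {k F₁ F₂ : Type u} [Field k] [CharZero k] [Field F₁] [Algebra k F₁] [IsFF k F₁]
    [Field F₂] [Algebra k F₂] [IsFF k F₂] (a : (Place k F₁ × Place k F₂) →₀ ℤ) : Prop :=
  (a.sum fun _ m => m) = 0 ∧ Principal (a.mapDomain Prod.fst) ∧ Principal (a.mapDomain Prod.snd)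

/-- The exterior product `a₁ × ... × a_n`, a 0-cycle on `X^n`: the multiplicity of
`(x₁, ..., x_n)` is the product of the multiplicities of the `x_i` in the `a_i`. -/
noncomputable def prodCycle {X : Type*} {n : ℕ} (a : Fin n → (X →₀ ℤ)) : (Fin n → X) →₀ ℤ :=
  Finsupp.ofSupportFinite (fun x => ∏ i, a i (x i)) (by
    refine Set.Finite.subset (Set.Finite.pi (fun i => (a i).support.finite_toSet)) ?_
    intro x hx i _
    rw [Finset.mem_coe, Finsupp.mem_support_iff]
    exact fun h => hx (Finset.prod_eq_zero (Finset.mem_univ i) h))

/-- The degree of a divisor on a curve over an algebraically closed field. -/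
noncomputable def cdeg {k F : Type u} [Field k] [Field F] [Algebra k F]
    (D : Place k F →₀ ℤ) : ℤ := D.sum fun _ m => m

/-- The genus of the smooth projective curve with function field `F` over the algebraically closed
field `k`: the largest value of `deg D + 1 - ℓ(D)` (Riemann's theorem), where `ℓ(D)` is the
dimension of `{f | f = 0 or div f + D ≥ 0}`. -/
noncomputable def genus (k F : Type u) [Field k] [CharZero k] [Field F] [Algebra k F] [IsFF k F] :
    ℕ := sSup {m : ℕ | ∃ D : Place k F →₀ ℤ, (m : ℤ) = cdeg D + 1 - ell D}

end Pool.Agent.W479
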