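import Pool.Agent.W479.Defs

/-! Definitions for the symmetric square of a curve. -/

set_option autoImplicit false
set_option linter.all false

namespace Pool.Agent.W479

open FF

universe u

/-- The quotient map `C × C → Sym² C` on points. -/
def symPt {X : Type u} (p : X × X) : Sym2 X := Sym2.mk p.1 p.2

/-- The divisor `[x] + [y]` on `C` attached to the point `{x, y}` of `Sym² C`. -/
noncomputable def symDiv {X : Type u} (s : Sym2 X) : X →₀ ℤ :=
  Sym2.lift ⟨fun x y => Finsupp.single x 1 + Finsupp.single y 1, fun x y => add_comm _ _⟩ s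

/-- A 0-cycle `∑ m {x, y}` on `Sym² C` is Albanese-trivial: it has degree zero and the divisor
`∑ m ([x] + [y])` on `C` is principal (`Alb (Sym² C) = Pic⁰ C`). -/
def AlbTrivialSym {k F : Type u} [Field k] [CharZero k] [Field F] [Algebra k F] [IsFF k F]
    (b : Sym2 (Place k F) →₀ ℤ) : Prop :=
  (b.sum fun _ m => m) = 0 ∧ Principal (b.sum fun s m => m • symDiv s)

/-- The 0-cycles on `(Sym² C)^n` which are push-forwards, under the quotient map
`(C × C)^n → (Sym² C)^n`, of 0-cycles rationally equivalent to zero; they are rationally equivalent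
to zero on `(Sym² C)^n`. -/
noncomputable def RatTrivSym (k F : Type u) [Field k] [CharZero k] [Field F] [Algebra k F] (n : ℕ) :
    AddSubgroup ((Fin n → Sym2 (Place k F)) →₀ ℤ) :=
  (RatTriv k F F n).map
    (Finsupp.mapDomain.addMonoidHom (fun (z : Fin n → Place k F × Place k F) i => symPt (z i)))

end Pool.Agent.W479
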