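import Pool.Agent.W559.Et.Stm3
import Pool.Agent.W417.Et.Sec
import Pool.Agent.W762.ET.Tame

/-!
# ET-SECW: smoothness of the algebra of the second level, with the tame part
-/

set_option autoImplicit false
set_option linter.unusedSectionVars false

universe u v w

namespace Pool.Agent.W479.ET

open Pool.Agent.W559.Mg Pool.Agent.W559.Et Finset

section eig

variable {k : Type u} [Field k] {A : Type v} [CommRing A] [Algebra k A] (h : A →ₐ[k] A) (M : ℕ)
  (ω : k)

/-- components for the characters of a cyclic group -/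
noncomputable def eg (c : ℕ) (a : A) : A :=
  (M : k)⁻¹ • ∑ i ∈ range M, (ω⁻¹) ^ (c * i) • h^[i] a

lemma it_mem (B : Subalgebra k A) (hB : ∀ x ∈ B, h x ∈ B) (i : ℕ) {a : A} (ha : a ∈ B) :
    h^[i] a ∈ B := by
  induction i with
  | zero => exact ha
  | succ i ih => rw [Function.iterate_succ_apply']; exact hB _ ih

lemma eg_mem (B : Subalgebra k A) (hB : ∀ x ∈ B, h x ∈ B) (c : ℕ) {a : A} (ha : a ∈ B) :
    eg h M ω c a ∈ B := by
  unfold eg
  exact B.smul_mem (B.sum_mem fun i _ => B.smul_mem (it_mem h B hB i ha) _) _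

lemma h_eg (hω : IsPrimitiveRoot ω M) (hM : 0 < M) (hh : ∀ x, h^[M] x = x) (c : ℕ) (a : A) :
    h (eg h M ω c a) = algebraMap k A (ω ^ c) * eg h M ω c a := by
  have hω0 : ω ≠ 0 := hω.ne_zero hM.ne'
  unfold eg
  rw [map_smul, map_sum, ← Algebra.smul_def, smul_comm (ω ^ c)]
  congr 1
  have h1 : ∀ i ∈ range M, h ((ω⁻¹) ^ (c * i) • h^[i] a) =
      (ω ^ c) • ((ω⁻¹) ^ (c * (i + 1)) • h^[i + 1] a) := by
    intro i _
    rw [map_smul, ← Function.iterate_succ_apply' h, smul_smul]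
    congr 1
    rw [mul_add, mul_one, pow_add, mul_left_comm, ← mul_pow, mul_inv_cancel₀ hω0, one_pow, mul_one]
  rw [Finset.sum_congr rfl h1, ← Finset.smul_sum]
  congr 1
  have h2 := Finset.sum_range_succ (fun i => (ω⁻¹) ^ (c * i) • h^[i] a) M
  rw [Finset.sum_range_succ' (fun i => (ω⁻¹) ^ (c * i) • h^[i] a) M] at h2
  have h3 : (ω⁻¹) ^ (c * M) • h^[M] a = (ω⁻¹) ^ (c * 0) • h^[0] a := by
    rw [hh, mul_zero, pow_zero, mul_comm c, pow_mul, inv_pow, hω.pow_eq_one, inv_one, one_pow]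
    rfl
  rw [h3] at h2
  exact add_right_cancel h2

lemma sum_eg (hω : IsPrimitiveRoot ω M) (hM : 0 < M) (hMk : (M : k) ≠ 0) (a : A) :
    ∑ c ∈ range M, eg h M ω c a = a := by
  unfold eg
  rw [← Finset.smul_sum, Finset.sum_comm]
  have h1 : ∑ i ∈ range M, ∑ c ∈ range M, (ω⁻¹) ^ (c * i) • h^[i] a =
      ∑ c ∈ range M, (ω⁻¹) ^ (c * 0) • h^[0] a := by
    apply Finset.sum_eq_single 0
    · intro i hi hi0
      rw [← Finset.sum_smul]
      have h2 : ∑ c ∈ range M, (ω⁻¹) ^ (c * i) = 0 := by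
        have h3 : ∀ c ∈ range M, (ω⁻¹) ^ (c * i) = ((ω⁻¹) ^ i) ^ c := by
          intro c _
          rw [← pow_mul, mul_comm]
        rw [Finset.sum_congr rfl h3]
        have h4 : (ω⁻¹) ^ i ≠ 1 := by
          have h5 := hω.inv
          exact h5.pow_ne_one_of_pos_of_lt hi0 (mem_range.1 hi)
        rw [geom_sum_eq h4, ← pow_mul, mul_comm, pow_mul, inv_pow, hω.pow_eq_one, inv_one, one_pow,
          sub_self, zero_div]
      rw [h2, zero_smul]
    · intro h0
      exact absurd (mem_range.2 hM) h0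
  rw [h1]
  simp only [mul_zero, pow_zero, one_smul, Finset.sum_const, card_range]
  change (M : k)⁻¹ • M • a = a
  rw [← Nat.cast_smul_eq_nsmul k, smul_smul, inv_mul_cancel₀ hMk, one_smul]

end eig

section poly

variable {k D : Type u} [Field k] [CommRing D] [Algebra k D]

/-- the algebra `S[z]` is spanned by `z ^ c`, `c < M` -/
lemma exists_coeff (S : Subalgebra k D) (z : D) {M : ℕ} (hM : 0 < M) (hzM : z ^ M ∈ S) {f : D}
    (hf : f ∈ Algebra.adjoin S {z}) :
    ∃ c : ℕ → D, (∀ i, c i ∈ S) ∧ f = ∑ i ∈ range M, c i * z ^ i := by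
  nontriviality D
  rw [Algebra.adjoin_singleton_eq_range_aeval] at hf
  obtain ⟨P, rfl⟩ := hf
  set q : Polynomial S := Polynomial.X ^ M - Polynomial.C ⟨z ^ M, hzM⟩ with hq
  have hqm : q.Monic := Polynomial.monic_X_pow_sub_C _ (by omega)
  have hqd : q.natDegree = M := Polynomial.natDegree_X_pow_sub_C
  have hq0 : Polynomial.aeval z q = 0 := by
    rw [hq, map_sub, map_pow, Polynomial.aeval_X, Polynomial.aeval_C]
    exact sub_self _
  have hq1 : q ≠ 1 := by
    intro h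
    rw [h, Polynomial.natDegree_one] at hqd
    omega
  refine ⟨fun i => ((P %ₘ q).coeff i : S), fun i => Subtype.prop _, ?_⟩
  have h1 : Polynomial.aeval z (P %ₘ q) = Polynomial.aeval z P :=
    Polynomial.aeval_modByMonic_eq_self_of_root hq0
  have h2 : (P %ₘ q).natDegree < M := by
    have := Polynomial.natDegree_modByMonic_lt P hqm hq1
    rwa [hqd] at this
  change Polynomial.aeval z P = _
  rw [← h1, Polynomial.aeval_eq_sum_range' h2]
  rfl

end poly

section tw

variable {k K : Type u} [Field k] [Field K] [Algebra k K]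

/-- the character -/
noncomputable def chr (K : Type u) [Field K] [Algebra k K] (ω : k) (hω0 : ω ≠ 0) :
    Multiplicative G3 →* ML K G3 where
  toFun d := mo (Multiplicative.toAdd d) (algebraMap k K (ω ^ co3 (Multiplicative.toAdd d)))
  map_one' := by
    rw [toAdd_one, map_zero, zpow_zero, map_one]
    exact mo_one
  map_mul' d e := by
    rw [toAdd_mul, map_add, zpow_add₀ hω0, map_mul, mo_mul]

/-- the twisted automorphism -/
noncomputable def et (h : K →ₐ[k] K) (M : ℕ) (ω : k) (hω0 : ω ≠ 0) : ML K G3 →ₐ[k] ML K G3 :=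
  ((AddMonoidAlgebra.lift K (ML K G3) G3 (chr K ω hω0)).restrictScalars k).comp
    (gm G3 (h ^ (M - 1)))

lemma et_mo (h : K →ₐ[k] K) (M : ℕ) (ω : k) (hω0 : ω ≠ 0) (d : G3) (a : K) :
    et h M ω hω0 (mo d a) = mo d (algebraMap k K (ω ^ co3 d) * h^[M - 1] a) := by
  unfold et
  rw [AlgHom.comp_apply, gm_mo]
  change AddMonoidAlgebra.lift K (ML K G3) G3 (chr K ω hω0) (AddMonoidAlgebra.single d _) = _
  rw [AddMonoidAlgebra.lift_single, pow_app]
  change h^[M - 1] a • (mo d (algebraMap k K (ω ^ co3 d)) : ML K G3) = _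
  rw [smul_mo, smul_eq_mul, mul_comm]

lemma it_algebraMap_mul {A : Type w} [CommRing A] [Algebra k A] (g : A →ₐ[k] A) (n : ℕ) (c : k)
    (x : A) : g^[n] (algebraMap k A c * x) = algebraMap k A c * g^[n] x := by
  induction n generalizing x with
  | zero => rfl
  | succ n ih => rw [Function.iterate_succ_apply, map_mul, AlgHom.commutes, ih,
      Function.iterate_succ_apply]

lemma dl_algebraMap_mul (g : K →ₐ[k] K) (n : ℕ) (c : k) (x : K) :
    (dl g)^[n] (algebraMap k K c * x) = algebraMap k K c * (dl g)^[n] x := by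
  induction n generalizing x with
  | zero => rfl
  | succ n ih =>
    have h1 : dl g (algebraMap k K c * x) = algebraMap k K c * dl g x := by
      unfold dl
      rw [map_mul, AlgHom.commutes]
      ring
    rw [Function.iterate_succ_apply, h1, ih, Function.iterate_succ_apply]

lemma dl_comm_gen {A : Type w} [CommRing A] [Algebra k A] {g h : A →ₐ[k] A}
    (hc : ∀ x, g (h x) = h (g x)) (n : ℕ) (x : A) : h ((dl g)^[n] x) = (dl g)^[n] (h x) := by
  induction n generalizing x with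
  | zero => rfl
  | succ n ih =>
    rw [Function.iterate_succ_apply, ih, Function.iterate_succ_apply]
    congr 1
    unfold dl
    rw [map_sub, hc]

lemma pow_app' {A : Type w} [CommRing A] [Algebra k A] (g : A →ₐ[k] A) (n : ℕ) (x : A) :
    (g ^ n) x = g^[n] x := by
  induction n generalizing x with
  | zero => rfl
  | succ n ih =>
    rw [pow_succ, Function.iterate_succ_apply]
    exact ih (g x)

lemma pow_comm' {A : Type w} [CommRing A] [Algebra k A] {g h : A →ₐ[k] A}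
    (hc : ∀ x, g (h x) = h (g x)) (n : ℕ) (x : A) : (g ^ n) (h x) = h ((g ^ n) x) := by
  rw [pow_app', pow_app']
  exact Function.Commute.iterate_left (fun x => hc x) n x

variable {γ h : K →ₐ[k] K} {M : ℕ} {ω : k} {hω0 : ω ≠ 0}

lemma et_comm (hc : ∀ x, γ (h x) = h (γ x)) (f : ML K G3) :
    gm G3 γ (et h M ω hω0 f) = et h M ω hω0 (gm G3 γ f) := by
  rw [eq_sum_mo f]
  simp only [map_sum]
  apply Finset.sum_congr rfl
  intro d _
  rw [et_mo, gm_mo, gm_mo, et_mo, map_mul, AlgHom.commutes]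
  have h1 : γ (h^[M - 1] (f.coeff d)) = h^[M - 1] (γ (f.coeff d)) :=
    Function.Commute.iterate_right (fun x => hc x) (M - 1) (f.coeff d)
  rw [h1]

lemma et_fix_mo (hM : 0 < M) (hh : ∀ x, h^[M] x = x) {d : G3} {b : K}
    (hb : h b = algebraMap k K (ω ^ co3 d) * b) : et h M ω hω0 (mo d b) = mo d b := by
  rw [et_mo, ← it_algebraMap_mul, ← hb, ← Function.iterate_succ_apply]
  have h1 : (M - 1).succ = M := by omega
  rw [h1, hh]

lemma h_dl {r : ℕ} (hc : ∀ x, γ (h x) = h (γ x)) (j : ℕ) {a : K} {c : ℤ}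
    (ha : h a = algebraMap k K (ω ^ c) * a) :
    h ((dl (γ ^ r))^[j] a) = algebraMap k K (ω ^ c) * (dl (γ ^ r))^[j] a := by
  rw [dl_comm_gen (pow_comm' hc r), ha, dl_algebraMap_mul]

lemma rw_fix {r : ℕ} {B : Subalgebra k K} (hM : 0 < M) (hh : ∀ x, h^[M] x = x)
    (hc : ∀ x, γ (h x) = h (γ x)) {f : ML K G3} (hf : f ∈ RW γ h r ω B) :
    et h M ω hω0 f = f := by
  have h1 : RW γ h r ω B ≤ fx (et h M ω hω0) := by
    unfold RW
    rw [Algebra.adjoin_le_iff]
    rintro y (hy | ⟨a, ha, c, hac, j, rfl⟩)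
    · rw [Set.mem_singleton_iff.1 hy]
      change et h M ω hω0 (mo (dg (-1) 0 0) 1) = mo (dg (-1) 0 0) 1
      apply et_fix_mo hM hh
      rw [co3_dg, zpow_zero, map_one, map_one, one_mul]
    · change et h M ω hω0 _ = _
      apply et_fix_mo hM hh
      rw [co3_dg]
      exact h_dl hc j hac
  exact h1 hf

/-- the unit of degree `(0, 0, c)` -/
lemma zpow_mem (S : Subalgebra k (ML K G3)) (h1 : mo (dg 0 0 1) 1 ∈ S)
    (h2 : mo (dg 0 0 (-1)) 1 ∈ S) (c : ℤ) : mo (dg 0 0 c) (1 : K) ∈ S := by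
  rcases Int.eq_nat_or_neg c with ⟨n, rfl | rfl⟩
  · have h3 := S.pow_mem h1 n
    rw [mo_pow, one_pow, dg_nsmul, mul_zero, mul_one] at h3
    exact h3
  · have h3 := S.pow_mem h2 n
    rw [mo_pow, one_pow, dg_nsmul, mul_zero, mul_neg, mul_one] at h3
    exact h3

lemma rw_le_rf {r : ℕ} {B : Subalgebra k K} : RW γ h r ω B ≤ RF γ r B := by
  have hz : mo (dg 0 0 1) 1 ∈ RF γ r B := Algebra.subset_adjoin (Or.inl (Or.inr (Or.inl rfl)))
  have hz' : mo (dg 0 0 (-1)) 1 ∈ RF γ r B :=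
    Algebra.subset_adjoin (Or.inl (Or.inr (Or.inr rfl)))
  unfold RW
  rw [Algebra.adjoin_le_iff]
  rintro y (hy | ⟨a, ha, c, hac, j, rfl⟩)
  · rw [Set.mem_singleton_iff.1 hy]
    exact Algebra.subset_adjoin (Or.inl (Or.inl rfl))
  · have h1 : (mo (dg j 0 c) ((dl (γ ^ r))^[j] a) : ML K G3) =
        mo (dg j 0 0) ((dl (γ ^ r))^[j] a) * mo (dg 0 0 c) 1 := by
      rw [mo_mul, dg_add, mul_one, add_zero, add_zero, zero_add]
    change mo (dg j 0 c) ((dl (γ ^ r))^[j] a) ∈ RF γ r B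
    rw [h1]
    exact (RF γ r B).mul_mem (Algebra.subset_adjoin (Or.inr ⟨a, ha, j, rfl⟩))
      (zpow_mem _ hz hz' c)

lemma zM_mem {r : ℕ} {B : Subalgebra k K} (hω : IsPrimitiveRoot ω M) (_hM : 0 < M) :
    (mo (dg 0 0 1) 1 : ML K G3) ^ M ∈ RW γ h r ω B ∧
      (mo (dg 0 0 (-1)) 1 : ML K G3) ^ M ∈ RW γ h r ω B := by
  constructor
  · refine Algebra.subset_adjoin (Or.inr ⟨1, B.one_mem, M, ?_, 0, ?_⟩)
    · rw [zpow_natCast, hω.pow_eq_one, map_one, map_one, one_mul]
    · rw [mo_pow, one_pow, dg_nsmul, mul_zero, mul_one]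
      rfl
  · refine Algebra.subset_adjoin (Or.inr ⟨1, B.one_mem, -M, ?_, 0, ?_⟩)
    · rw [zpow_neg, zpow_natCast, hω.pow_eq_one, inv_one, map_one, map_one, one_mul]
    · rw [mo_pow, one_pow, dg_nsmul, mul_zero, mul_neg, mul_one]
      rfl

lemma zz' : (mo (dg 0 0 1) 1 : ML K G3) * mo (dg 0 0 (-1)) 1 = 1 := by
  rw [mo_mul, dg_add, one_mul]
  exact mo_one

lemma dl_it_sum {A : Type w} [CommRing A] [Algebra k A] (g : A →ₐ[k] A) (j : ℕ) {ι : Type}
    (s : Finset ι) (f : ι → A) :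
    (dl g)^[j] (∑ i ∈ s, f i) = ∑ i ∈ s, (dl g)^[j] (f i) := by
  classical
  have h0 : ∀ x y : A, (dl g)^[j] (x + y) = (dl g)^[j] x + (dl g)^[j] y := by
    induction j with
    | zero => exact fun _ _ => rfl
    | succ j ih => intro x y; rw [Function.iterate_succ_apply, dl_add, ih,
        Function.iterate_succ_apply, Function.iterate_succ_apply]
  have h00 : (dl g)^[j] (0 : A) = 0 := by
    have := h0 0 0
    rw [add_zero] at this
    exact left_eq_add.1 this
  induction s using Finset.induction_on with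
  | empty => rw [Finset.sum_empty, Finset.sum_empty, h00]
  | insert a s ha ih => rw [Finset.sum_insert ha, Finset.sum_insert ha, h0, ih]

lemma mo_sum {d : G3} {ι : Type} (s : Finset ι) (f : ι → K) :
    (mo d (∑ i ∈ s, f i) : ML K G3) = ∑ i ∈ s, mo d (f i) := by
  classical
  induction s using Finset.induction_on with
  | empty => rw [Finset.sum_empty, Finset.sum_empty, mo_zero]
  | insert a s ha ih => rw [Finset.sum_insert ha, Finset.sum_insert ha, mo_add, ih]

lemma rf_adjoin {r : ℕ} {B : Subalgebra k K} (hω : IsPrimitiveRoot ω M) (hM : 0 < M)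
    (hMk : (M : k) ≠ 0) (hh : ∀ x, h^[M] x = x) (hB : ∀ x ∈ B, h x ∈ B) {f : ML K G3}
    (hf : f ∈ RF γ r B) : f ∈ Algebra.adjoin (RW γ h r ω B) {(mo (dg 0 0 1) 1 : ML K G3)} := by
  set A := Algebra.adjoin (RW γ h r ω B) {(mo (dg 0 0 1) 1 : ML K G3)} with hA
  have hz : (mo (dg 0 0 1) 1 : ML K G3) ∈ A := Algebra.subset_adjoin rfl
  have hR : ∀ x ∈ RW γ h r ω B, x ∈ A := fun x hx => A.algebraMap_mem ⟨x, hx⟩
  have hz' : (mo (dg 0 0 (-1)) 1 : ML K G3) ∈ A := by
    have h1 : (mo (dg 0 0 (-1)) 1 : ML K G3) =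
        mo (dg 0 0 (-1)) 1 ^ M * mo (dg 0 0 1) 1 ^ (M - 1) := by
      have h2 : M = (M - 1) + 1 := by omega
      conv_rhs => rw [h2, pow_succ']
      rw [Nat.add_sub_cancel, mul_assoc, ← mul_pow, mul_comm (mo (dg 0 0 (-1)) 1) (mo (dg 0 0 1) 1),
        zz', one_pow, mul_one]
    rw [h1]
    exact A.mul_mem (hR _ (zM_mem hω hM).2) (A.pow_mem hz _)
  have h1 : RF γ r B ≤ A.restrictScalars k := by
    unfold RF
    rw [Algebra.adjoin_le_iff]
    rintro y ((hy | hy | hy) | ⟨a, ha, j, rfl⟩)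
    · rw [hy]
      exact hR _ (Algebra.subset_adjoin (Or.inl rfl))
    · rw [hy]; exact hz
    · rw [hy]; exact hz'
    · change mo (dg j 0 0) ((dl (γ ^ r))^[j] a) ∈ A
      rw [← sum_eg h M ω hω hM hMk a, dl_it_sum, mo_sum]
      apply A.sum_mem
      intro c _
      have h2 : (mo (dg j 0 0) ((dl (γ ^ r))^[j] (eg h M ω c a)) : ML K G3) =
          mo (dg j 0 c) ((dl (γ ^ r))^[j] (eg h M ω c a)) * mo (dg 0 0 (-1)) 1 ^ c := by
        rw [mo_pow, one_pow, dg_nsmul, mo_mul, dg_add, mul_one]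
        simp
      rw [h2]
      refine A.mul_mem (hR _ (Algebra.subset_adjoin (Or.inr ⟨eg h M ω c a,
        eg_mem h M ω B hB c ha, c, ?_, j, rfl⟩))) (A.pow_mem hz' c)
      rw [zpow_natCast]
      exact h_eg h M ω hω hM hh c a
  exact h1 hf

/-- eigencomponents are determined -/
lemma van {D : Type w} [CommRing D] [IsDomain D] [Algebra k D] (hω : IsPrimitiveRoot ω M)
    (η : D →ₐ[k] D) {z : D} (hz0 : z ≠ 0) (hηz : η z = algebraMap k D ω * z) (u : ℕ → D)
    (hu : ∀ i, η (u i) = u i) (hs : ∑ i ∈ range M, u i * z ^ i = 0) : ∀ i < M, u i = 0 := by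
  have h1 : ∀ (i j : ℕ), η^[i] (u j * z ^ j) = u j * z ^ j * (algebraMap k D ω ^ j) ^ i := by
    intro i j
    induction i with
    | zero => simp
    | succ i ih =>
      rw [Function.iterate_succ_apply', ih, map_mul, map_mul, map_pow, map_pow, map_pow, hu, hηz,
        AlgHom.commutes, pow_succ]
      ring
  have h2 : (fun j : Fin M => u j * z ^ (j : ℕ)) = 0 := by
    apply Matrix.eq_zero_of_forall_pow_sum_mul_pow_eq_zero
      (f := fun j : Fin M => algebraMap k D ω ^ (j : ℕ))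
    · intro a b hab
      have h3 : algebraMap k D (ω ^ (a : ℕ)) = algebraMap k D (ω ^ (b : ℕ)) := by
        rw [map_pow, map_pow]; exact hab
      have h4 := (algebraMap k D).injective h3
      exact Fin.ext (hω.pow_inj a.2 b.2 h4)
    · intro i
      have h5 : ∑ j : Fin M, u j * z ^ (j : ℕ) * (algebraMap k D ω ^ (j : ℕ)) ^ (i : ℕ) =
          ∑ j : Fin M, η^[i] (u j * z ^ (j : ℕ)) :=
        Finset.sum_congr rfl fun j _ => (h1 i j).symm
      rw [h5, Fin.sum_univ_eq_sum_range (fun j => η^[i] (u j * z ^ j)) M]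
      have h6 : ∑ j ∈ range M, η^[i] (u j * z ^ j) = (η ^ (i : ℕ)) (∑ j ∈ range M, u j * z ^ j) := by
        rw [map_sum]
        exact Finset.sum_congr rfl fun j _ => (pow_app' _ _ _).symm
      rw [h6, hs, map_zero]
  intro i hi
  have h7 := congrFun h2 ⟨i, hi⟩
  exact (mul_eq_zero.1 h7).resolve_right (pow_ne_zero _ hz0)

lemma gm_it_mo (n : ℕ) (d : G3) (a : K) : (gm G3 γ ^ n) (mo d a) = mo d (γ^[n] a) := by
  rw [pow_app]
  induction n with
  | zero => rfl
  | succ n ih => rw [Function.iterate_succ_apply', ih, gm_mo, Function.iterate_succ_apply']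

lemma rf_stable {r : ℕ} {B : Subalgebra k K} (hB : ∀ x ∈ B, γ x ∈ B) :
    ∀ f ∈ RF γ r B, gm G3 γ f ∈ RF γ r B := by
  have h1 : RF γ r B ≤ (RF γ r B).comap (gm G3 γ) := by
    conv_lhs => unfold RF
    rw [Algebra.adjoin_le_iff]
    rintro y ((hy | hy | hy) | ⟨a, ha, j, rfl⟩)
    · rw [hy]
      change gm G3 γ (mo (dg (-1) 0 0) 1) ∈ RF γ r B
      rw [gm_mo, map_one]
      exact Algebra.subset_adjoin (Or.inl (Or.inl rfl))
    · rw [hy]
      change gm G3 γ (mo (dg 0 0 1) 1) ∈ RF γ r B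
      rw [gm_mo, map_one]
      exact Algebra.subset_adjoin (Or.inl (Or.inr (Or.inl rfl)))
    · rw [hy]
      change gm G3 γ (mo (dg 0 0 (-1)) 1) ∈ RF γ r B
      rw [gm_mo, map_one]
      exact Algebra.subset_adjoin (Or.inl (Or.inr (Or.inr rfl)))
    · change gm G3 γ (mo (dg j 0 0) ((dl (γ ^ r))^[j] a)) ∈ RF γ r B
      rw [gm_mo]
      refine Algebra.subset_adjoin (Or.inr ⟨γ a, hB a ha, j, ?_⟩)
      rw [dl_comm_gen (g := γ ^ r) (h := γ) (pow_comm' (g := γ) (h := γ) (fun _ => rfl) r)]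
  exact fun f hf => h1 hf

end tw

theorem secw : SecWStm.{u} := by
  intro k K _ _ _ γ h p M ω hG B hgB hhB hsm δ x a hx hx0 hγx ha hga
  have hω0 : ω ≠ 0 := hG.om.ne_zero hG.M0.ne'
  set z : ML K G3 := mo (dg 0 0 1) 1 with hz
  set z' : ML K G3 := mo (dg 0 0 (-1)) 1 with hz'
  set T : ML K G3 := mo (dg 0 1 0) 1 with hT
  set T' : ML K G3 := mo (dg 0 (-1) 0) 1 with hT'
  set t : ML K G3 := mo (dg (-1) 0 0) a with ht
  set y : ML K G3 := mo (-δ) x⁻¹ with hy
  have hRWRF : RW γ h p ω B ≤ RF γ p B := rw_le_rf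
  have hx' : mo δ x ∈ RF γ p B := hRWRF hx
  set W := lc (RW γ h p ω B) (mo δ x) hx ⊓ fx (gm G3 γ ^ p) with hW
  set W' := lc (RF γ p B) (mo δ x) hx' ⊓ fx (gm G3 γ ^ p) with hW'
  have hxx : mo δ x * y = 1 := mo_inv hx0
  have hzz : z * z' = 1 := zz'
  have hzRF : z ∈ RF γ p B := Algebra.subset_adjoin (Or.inl (Or.inr (Or.inl rfl)))
  have hz'RF : z' ∈ RF γ p B := Algebra.subset_adjoin (Or.inl (Or.inr (Or.inr rfl)))
  have hgz : gm G3 γ z = z := by rw [hz, gm_mo, map_one]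
  have hgz' : gm G3 γ z' = z' := by rw [hz', gm_mo, map_one]
  have hgzp : (gm G3 γ ^ p) z = z := by
    rw [pow_app]; exact Function.iterate_fixed hgz p
  have hgzp' : (gm G3 γ ^ p) z' = z' := by
    rw [pow_app]; exact Function.iterate_fixed hgz' p
  have hz0 : z ≠ 0 := mo_ne_zero one_ne_zero
  have hS' : Algebra.Smooth k (S2 (gm G3 γ) p T T' W' t) :=
    Pool.Agent.W417.Et.sec k K γ p hG.pp hG.pk (RF γ p B)
      (Algebra.subset_adjoin (Or.inl (Or.inl rfl))) (rf_stable hgB) hsm (mo δ x) y t hx'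
      (by rw [gm_mo, hγx]) hxx (lc_mono hx hx' hRWRF ha)
      (by rw [ht, gm_it_mo, hga, mo_add]; rfl)
  have hηR : ∀ f ∈ RW γ h p ω B, et h M ω hω0 f = f := fun f hf => rw_fix hG.M0 hG.hM hG.c hf
  have hηx : et h M ω hω0 (mo δ x) = mo δ x := hηR _ hx
  have hηL : ∀ f ∈ lc (RW γ h p ω B) (mo δ x) hx, et h M ω hω0 f = f := by
    rintro f ⟨n, hn⟩
    have h1 := hηR _ hn
    rw [map_mul, map_pow, hηx] at h1
    have h2 : y ^ n * (mo δ x ^ n * et h M ω hω0 f) = y ^ n * (mo δ x ^ n * f) := by rw [h1]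
    rw [← mul_assoc, ← mul_assoc, ← mul_pow, mul_comm y, hxx, one_pow, one_mul, one_mul] at h2
    exact h2
  have hηz : et h M ω hω0 z = algebraMap k (ML K G3) ω * z := by
    rw [hz, et_mo, co3_dg, zpow_one]
    have h1 : h^[M - 1] (1 : K) = 1 := by
      rw [← pow_app, map_one]
    rw [h1, algebraMap_ML, mo_mul, zero_add]
  have hηcomm : ∀ f, gm G3 γ (et h M ω hω0 f) = et h M ω hω0 (gm G3 γ f) := et_comm hG.c
  have hTT : et h M ω hω0 T = T := by
    apply et_fix_mo hG.M0 hG.hM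
    rw [co3_dg, zpow_zero, map_one, map_one, one_mul]
  have hTT' : et h M ω hω0 T' = T' := by
    apply et_fix_mo hG.M0 hG.hM
    rw [co3_dg, zpow_zero, map_one, map_one, one_mul]
  -- the equality of the two algebras
  have hWW : W ≤ W' := fun f hf => ⟨lc_mono hx hx' hRWRF hf.1, hf.2⟩
  have hadj : Algebra.adjoin k ((S2 (gm G3 γ) p T T' W t : Set (ML K G3)) ∪ {z, z'}) =
      S2 (gm G3 γ) p T T' W' t := by
    apply le_antisymm
    · rw [Algebra.adjoin_le_iff]
      rintro f (hf | hf | hf)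
      · have h1 : S2 (gm G3 γ) p T T' W t ≤ S2 (gm G3 γ) p T T' W' t :=
          S2_le _ _ _ _ _ _ (S2_T' _ _ _ _ _ _) (fun w hw i => S2_w _ _ _ _ _ _ (hWW hw) i)
            (fun i hi => S2_t _ _ _ _ _ _ hi)
        exact h1 hf
      · rw [hf]
        exact S2_W _ _ _ _ _ _ ⟨le_lc _ _ _ hzRF, hgzp⟩
      · rw [hf]
        exact S2_W _ _ _ _ _ _ ⟨le_lc _ _ _ hz'RF, hgzp'⟩
    · set A := Algebra.adjoin k ((S2 (gm G3 γ) p T T' W t : Set (ML K G3)) ∪ {z, z'}) with hA
      have hSA : ∀ f ∈ S2 (gm G3 γ) p T T' W t, f ∈ A :=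
        fun f hf => Algebra.subset_adjoin (Or.inl hf)
      have hzA : z ∈ A := Algebra.subset_adjoin (Or.inr (Or.inl rfl))
      apply S2_le
      · exact hSA _ (S2_T' _ _ _ _ _ _)
      · rintro w ⟨⟨n, hn⟩, hwg⟩ i
        obtain ⟨F, hF, hFs⟩ := exists_coeff (RW γ h p ω B) z hG.M0 (zM_mem hG.om hG.M0).1
          (rf_adjoin hG.om hG.M0 hG.Mk hG.hM hhB hn)
        have hyx : y ^ n * mo δ x ^ n = 1 := by rw [← mul_pow, mul_comm y, hxx, one_pow]
        have hw1 : w = ∑ c ∈ range M, (y ^ n * F c) * z ^ c := by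
          calc w = (y ^ n * mo δ x ^ n) * w := by rw [hyx, one_mul]
            _ = y ^ n * (mo δ x ^ n * w) := by ring
            _ = y ^ n * ∑ c ∈ range M, F c * z ^ c := by rw [hFs]
            _ = ∑ c ∈ range M, (y ^ n * F c) * z ^ c := by
                rw [Finset.mul_sum]
                exact Finset.sum_congr rfl fun c _ => by ring
        have hu1 : ∀ c, y ^ n * F c ∈ lc (RW γ h p ω B) (mo δ x) hx := by
          intro c
          refine ⟨n, ?_⟩
          rw [← mul_assoc, mul_comm (mo δ x ^ n), hyx, one_mul]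
          exact hF c
        have hu2 : ∀ c < M, (gm G3 γ ^ p) (y ^ n * F c) - y ^ n * F c = 0 := by
          apply van hG.om (et h M ω hω0) hz0 hηz
            (fun c => (gm G3 γ ^ p) (y ^ n * F c) - y ^ n * F c)
          · intro c
            change et h M ω hω0 ((gm G3 γ ^ p) (y ^ n * F c) - y ^ n * F c) = _
            rw [map_sub, ← pow_comm' hηcomm p, hηL _ (hu1 c)]
          · have h3 : (gm G3 γ ^ p) w - w = 0 := sub_eq_zero.2 hwg
            rw [hw1, map_sum, ← Finset.sum_sub_distrib] at h3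
            rw [← h3]
            apply Finset.sum_congr rfl
            intro c _
            change ((gm G3 γ ^ p) (y ^ n * F c) - y ^ n * F c) * z ^ c =
              (gm G3 γ ^ p) (y ^ n * F c * z ^ c) - y ^ n * F c * z ^ c
            rw [map_mul (gm G3 γ ^ p) (y ^ n * F c) (z ^ c), map_pow, hgzp]
            ring
        rw [hw1, dl_it_sum, Finset.sum_mul]
        apply A.sum_mem
        intro c hc
        have h4 : (z ^ c : ML K G3) ∈ fx (gm G3 γ) := by
          rw [mem_fx, map_pow, hgz]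
        rw [mul_comm (y ^ n * F c), dl_iter_fx_mul _ h4, mul_assoc]
        refine A.mul_mem (A.pow_mem hzA c) (hSA _ (S2_w _ _ _ _ _ _ ?_ i))
        exact ⟨hu1 c, sub_eq_zero.1 (hu2 c (mem_range.1 hc))⟩
      · intro i hi
        exact hSA _ (S2_t _ _ _ _ _ _ hi)
  have hfix : ∀ f ∈ S2 (gm G3 γ) p T T' W t, et h M ω hω0 f = f := by
    have h1 : S2 (gm G3 γ) p T T' W t ≤ fx (et h M ω hω0) := by
      apply S2_le
      · exact hTT'
      · intro w hw i
        change et h M ω hω0 _ = _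
        rw [map_mul, map_pow, hTT, dl_comm_gen hηcomm, hηL _ hw.1]
        rfl
      · intro i _
        change et h M ω hω0 _ = _
        rw [map_mul, map_pow, hTT, dl_comm_gen hηcomm, hηL _ ha]
        rfl
    exact fun f hf => h1 hf
  have hzMW : ∀ f ∈ RW γ h p ω B, gm G3 γ f = f → f ∈ S2 (gm G3 γ) p T T' W t := by
    intro f hf hgf
    refine S2_W _ _ _ _ _ _ ⟨le_lc _ _ _ hf, ?_⟩
    change (gm G3 γ ^ p) f = f
    rw [pow_app]
    exact Function.iterate_fixed hgf p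
  rw [← hadj] at hS'
  exact Pool.Agent.W762.ET.tame k (ML K G3) M hG.M0 hG.Mk ω hG.om (et h M ω hω0) z z' hzz hηz
    (S2 (gm G3 γ) p T T' W t) hfix
    (hzMW _ (zM_mem hG.om hG.M0).1 (by rw [map_pow, hgz]))
    (hzMW _ (zM_mem hG.om hG.M0).2 (by rw [map_pow, hgz'])) hS'

end Pool.Agent.W479.ET
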