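import Pool.Agent.W479.Multi

/-! Voisin's conjecture for products of two curves. -/

set_option autoImplicit false
set_option linter.all false

namespace Pool.Agent.W479

open FF Equiv

universe u v w

variable {k : Type u} [Field k] [CharZero k]

/-- Symmetrisation over `genus + 1` coordinates on a curve. -/
theorem sym_kill [IsAlgClosed k] {F : Type u} [Field F] [Algebra k F] [IsFF k F] {n : ℕ}
    (A : Finset (Fin n)) (hA : A.card = genus k F + 1) (p : {x // x ∈ A} → Place k F) (o : Place k F)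
    {Y : Type v} (N : MorSys k Y) (G : ({x // x ∈ A} → Place k F) → Y)
    (hG : ∀ (L : Type u) [Field L] [Algebra k L] (φ : Place k L → ({x // x ∈ A} → Place k F)),
      φ ∈ powSys (curveSys k F) {x // x ∈ A} L → G ∘ φ ∈ N L)
    {Q : Type w} [AddCommGroup Q] (T : (Y →₀ ℤ) →ₗ[ℤ] Q) (hT : ∀ z ∈ Rat N, T z = 0)
    (hT' : ∀ q : {x // x ∈ A} → Place k F, (∃ j, q j = o) → T (Finsupp.single (G q) 1) = 0) :
    ∑ ρ : Perm {x // x ∈ A}, T (Finsupp.single (G (p ∘ ρ)) 1) = 0 := by
  classical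
  obtain ⟨q, ⟨j, hj⟩, hq⟩ := exists_move (k := k) (F := F) (A := {x // x ∈ A}) (by simpa using hA) p o
  have h1 := inj_sub_mem (curveSys_const F) p q hq {x // x ∈ A}
  have h2 := hT _ (Rat_push G hG h1)
  have h3 : ∀ p : {x // x ∈ A} → Place k F,
      T ((inj {x // x ∈ A} {x // x ∈ A} p).mapDomain G)
        = ∑ ρ : Perm {x // x ∈ A}, T (Finsupp.single (G (p ∘ ρ)) 1) := by
    intro p
    rw [inj_eq, Finsupp.mapDomain_finset_sum, map_sum,
      ← Equiv.sum_comp (Equiv.embeddingEquivOfFinite {x // x ∈ A}).symm]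
    refine Finset.sum_congr rfl fun ρ _ => ?_
    rw [Finsupp.mapDomain_single]
    rfl
  have h4 : T ((inj {x // x ∈ A} {x // x ∈ A} q).mapDomain G) = 0 := by
    rw [h3]
    apply Finset.sum_eq_zero
    intro ρ _
    apply hT'
    exact ⟨ρ.symm j, by simp [hj]⟩
  have h5 : (inj {x // x ∈ A} {x // x ∈ A} p - inj {x // x ∈ A} {x // x ∈ A} q).mapDomain G
      = (inj {x // x ∈ A} {x // x ∈ A} p).mapDomain G - (inj {x // x ∈ A} {x // x ∈ A} q).mapDomain G :=
    map_sub (Finsupp.mapDomain.addMonoidHom (M := ℤ) G) _ _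
  rw [h5, map_sub, h4, sub_zero, h3] at h2
  exact h2

/-- signs -/
def wB (e : Bool × Bool) : ℤ := (if e.1 then -1 else 1) * (if e.2 then -1 else 1)

/-- replacing coordinates by base points -/
def cB {X₁ : Type v} {X₂ : Type w} (o₁ : X₁) (o₂ : X₂) (e : Bool × Bool) (s : X₁ × X₂) : X₁ × X₂ :=
  (if e.1 then o₁ else s.1, if e.2 then o₂ else s.2)

theorem lin_point {X₁ : Type v} {X₂ : Type w} (o₁ : X₁) (o₂ : X₂) (s : X₁ × X₂) :
    lin wB (cB o₁ o₂) (Finsupp.single s 1) =
      Finsupp.single s 1 - Finsupp.single (o₁, s.2) 1 - Finsupp.single (s.1, o₂) 1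
        + Finsupp.single (o₁, o₂) 1 := by
  rw [lin_single, Fintype.sum_prod_type]
  simp [wB, cB]
  abel

theorem lin_eq {X₁ : Type v} {X₂ : Type w} (o₁ : X₁) (o₂ : X₂) (a : (X₁ × X₂) →₀ ℤ) :
    lin wB (cB o₁ o₂) a = a - (a.mapDomain Prod.snd).mapDomain (fun y => (o₁, y))
      - (a.mapDomain Prod.fst).mapDomain (fun x => (x, o₂))
      + Finsupp.single (o₁, o₂) (a.sum fun _ m => m) := by
  induction a using Finsupp.induction_linear with
  | zero => simp
  | add a b ha hb =>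
    rw [map_add, ha, hb, Finsupp.sum_add_index' (by intro; rfl) (by intros; rfl)]
    simp only [Finsupp.mapDomain_add, Finsupp.single_add]
    abel
  | single s m =>
    have h3 : Finsupp.single s m = m • Finsupp.single s (1 : ℤ) := by simp
    rw [h3, map_smul, lin_point]
    have h4 : ((m • Finsupp.single s (1 : ℤ)).sum fun _ m => m) = m := by
      simp
    rw [h4]
    simp [smul_add, smul_sub, Finsupp.mapDomain_single]

theorem lin_killed_fst {X₁ : Type v} {X₂ : Type w} (o₁ : X₁) (o₂ : X₂) (y : X₂) :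
    lin wB (cB o₁ o₂) (Finsupp.single (o₁, y) 1) = 0 := by
  rw [lin_point]; simp

theorem lin_killed_snd {X₁ : Type v} {X₂ : Type w} (o₁ : X₁) (o₂ : X₂) (x : X₁) :
    lin wB (cB o₁ o₂) (Finsupp.single (x, o₂) 1) = 0 := by
  rw [lin_point]; simp

theorem albTrivial_sub {F₁ F₂ : Type u} [Field F₁] [Algebra k F₁] [IsFF k F₁]
    [Field F₂] [Algebra k F₂] [IsFF k F₂] (o₁ : Place k F₁) (o₂ : Place k F₂)
    {a : (Place k F₁ × Place k F₂) →₀ ℤ} (ha : AlbTrivial a) :
    lin wB (cB o₁ o₂) a - a ∈ Rat (mulSys (curveSys k F₁) (curveSys k F₂)) := by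
  obtain ⟨h0, h1, h2⟩ := ha
  rw [lin_eq, h0, Finsupp.single_zero, add_zero]
  have h3 : a - (a.mapDomain Prod.snd).mapDomain (fun y => (o₁, y))
      - (a.mapDomain Prod.fst).mapDomain (fun x => (x, o₂)) - a
      = - ((a.mapDomain Prod.snd).mapDomain (fun y => (o₁, y)))
        - ((a.mapDomain Prod.fst).mapDomain (fun x => (x, o₂))) := by abel
  rw [h3]
  apply sub_mem
  · apply neg_mem
    refine Rat_push _ ?_ (principal_mem h2)
    intro L _ _ φ hφ
    exact ⟨Or.inl ⟨o₁, fun _ => rfl⟩, hφ⟩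
  · refine Rat_push _ ?_ (principal_mem h1)
    intro L _ _ φ hφ
    exact ⟨hφ, Or.inl ⟨o₂, fun _ => rfl⟩⟩

theorem prodML_zero_slot {X : Type*} {n : ℕ} (a : Fin n → (X →₀ ℤ)) (i : Fin n) (h : a i = 0) :
    prodML X n a = 0 := MultilinearMap.map_coord_zero _ i h

theorem main [IsAlgClosed k] {F₁ F₂ : Type u} [Field F₁] [Algebra k F₁] [IsFF k F₁]
    [Field F₂] [Algebra k F₂] [IsFF k F₂] {n : ℕ} (hn : genus k F₁ * genus k F₂ < n)
    (a : Fin n → ((Place k F₁ × Place k F₂) →₀ ℤ)) (ha : ∀ i, AlbTrivial (a i)) :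
    ∑ σ : Perm (Fin n), (Perm.sign σ : ℤ) • prodCycle (fun i => a (σ i)) ∈ RatTriv k F₁ F₂ n := by
  classical
  rw [RatTriv_eq]
  obtain ⟨o₁, -⟩ := exists_place (k := k) (K := F₁)
  obtain ⟨o₂, -⟩ := exists_place (k := k) (K := F₂)
  let X := Place k F₁ × Place k F₂
  let M : MorSys k X := mulSys (curveSys k F₁) (curveSys k F₂)
  have hM : HasConst M := mulSys_const (curveSys_const F₁) (curveSys_const F₂)
  change ∑ σ : Perm (Fin n), (Perm.sign σ : ℤ) • prodML X n (fun i => a (σ i)) ∈ Rat (powSys M (Fin n))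
  let π : (X →₀ ℤ) →ₗ[ℤ] (X →₀ ℤ) := lin wB (cB o₁ o₂)
  let Q := ((Fin n → X) →₀ ℤ) ⧸ Rat (powSys M (Fin n))
  let q : ((Fin n → X) →₀ ℤ) →ₗ[ℤ] Q := (QuotientAddGroup.mk' (Rat (powSys M (Fin n)))).toIntLinearMap
  have hq : ∀ t, q t = 0 ↔ t ∈ Rat (powSys M (Fin n)) := fun t => QuotientAddGroup.eq_zero_iff t
  let T : ((Fin n → X) →₀ ℤ) →ₗ[ℤ] Q := q ∘ₗ Lin wB (cB o₁ o₂)
  have hc : ∀ (e : Bool × Bool) (L : Type u) [Field L] [Algebra k L] (φ : Place k L → X),
      φ ∈ M L → cB o₁ o₂ e ∘ φ ∈ M L := by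
    rintro ⟨e1, e2⟩ L _ _ φ ⟨h1, h2⟩
    refine ⟨?_, ?_⟩
    · cases e1
      · exact h1
      · exact Or.inl ⟨o₁, fun _ => rfl⟩
    · cases e2
      · exact h2
      · exact Or.inl ⟨o₂, fun _ => rfl⟩
  have hT : ∀ z ∈ Rat (powSys M (Fin n)), T z = 0 := by
    intro z hz
    change q (Lin wB (cB o₁ o₂) z) = 0
    rw [hq]
    exact Lin_mem _ _ hc hz
  have hTs : ∀ s : Fin n → X, T (Finsupp.single s 1) = q (prodML X n (fun i => π (Finsupp.single (s i) 1))) := by
    intro s
    change q (Lin wB (cB o₁ o₂) (Finsupp.single s 1)) = _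
    rw [Lin_single]
  have hT1 : ∀ s : Fin n → X, (∃ i, (s i).1 = o₁) → T (Finsupp.single s 1) = 0 := by
    rintro s ⟨i, hi⟩
    rw [hTs, prodML_zero_slot _ i, map_zero]
    have : s i = (o₁, (s i).2) := by rw [← hi]
    rw [this]
    exact lin_killed_fst o₁ o₂ _
  have hT2 : ∀ s : Fin n → X, (∃ i, (s i).2 = o₂) → T (Finsupp.single s 1) = 0 := by
    rintro s ⟨i, hi⟩
    rw [hTs, prodML_zero_slot _ i, map_zero]
    have : s i = ((s i).1, o₂) := by rw [← hi]
    rw [this]
    exact lin_killed_snd o₁ o₂ _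
  -- alternating sums of points
  have hpt : ∀ s : Fin n → X, ∑ σ : Perm (Fin n), (Perm.sign σ : ℤ) • T (Finsupp.single (fun i => s (σ i)) 1) = 0 := by
    intro s
    let B : Perm (Fin n) → Perm (Fin n) → Q := fun σ τ =>
      T (Finsupp.single (fun i => ((s (σ i)).1, (s (τ i)).2)) 1)
    refine Alg.main hn B ?_ ?_
    · intro τ A hA σ
      let G : ({x // x ∈ A} → Place k F₁) → (Fin n → X) := fun p i =>
        (if h : i ∈ A then p ⟨i, h⟩ else (s (σ i)).1, (s (τ i)).2)
      have h1 := sym_kill (F := F₁) A hA (fun i => (s (σ i.1)).1) o₁ (powSys M (Fin n)) G ?_ T hT ?_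
      · rw [← h1]
        refine Finset.sum_congr rfl fun ρ _ => ?_
        change T (Finsupp.single (fun i => ((s ((σ * Perm.ofSubtype ρ) i)).1, (s (τ i)).2)) 1) = _
        congr 2
        funext i
        simp only [G]
        congr 1
        by_cases h : i ∈ A
        · rw [dif_pos h, Perm.mul_apply, Perm.ofSubtype_apply_of_mem ρ h]; rfl
        · rw [dif_neg h, Perm.mul_apply, Perm.ofSubtype_apply_of_not_mem ρ h]
      · intro L _ _ φ hφ i
        refine ⟨?_, Or.inl ⟨(s (τ i)).2, fun _ => rfl⟩⟩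
        by_cases h : i ∈ A
        · simp only [G, Function.comp, dif_pos h]
          exact hφ ⟨i, h⟩
        · simp only [G, Function.comp, dif_neg h]
          exact Or.inl ⟨(s (σ i)).1, fun _ => rfl⟩
      · rintro p ⟨j, hj⟩
        apply hT1
        refine ⟨j.1, ?_⟩
        simp only [G]
        rw [dif_pos j.2]; exact hj
    · intro σ A hA τ
      let G : ({x // x ∈ A} → Place k F₂) → (Fin n → X) := fun p i =>
        ((s (σ i)).1, if h : i ∈ A then p ⟨i, h⟩ else (s (τ i)).2)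
      have h1 := sym_kill (F := F₂) A hA (fun i => (s (τ i.1)).2) o₂ (powSys M (Fin n)) G ?_ T hT ?_
      · rw [← h1]
        refine Finset.sum_congr rfl fun ρ _ => ?_
        change T (Finsupp.single (fun i => ((s (σ i)).1, (s ((τ * Perm.ofSubtype ρ) i)).2)) 1) = _
        congr 2
        funext i
        simp only [G]
        congr 1
        by_cases h : i ∈ A
        · rw [dif_pos h, Perm.mul_apply, Perm.ofSubtype_apply_of_mem ρ h]; rfl
        · rw [dif_neg h, Perm.mul_apply, Perm.ofSubtype_apply_of_not_mem ρ h]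
      · intro L _ _ φ hφ i
        refine ⟨Or.inl ⟨(s (σ i)).1, fun _ => rfl⟩, ?_⟩
        by_cases h : i ∈ A
        · simp only [G, Function.comp, dif_pos h]
          exact hφ ⟨i, h⟩
        · simp only [G, Function.comp, dif_neg h]
          exact Or.inl ⟨(s (τ i)).2, fun _ => rfl⟩
      · rintro p ⟨j, hj⟩
        apply hT2
        refine ⟨j.1, ?_⟩
        simp only [G]
        rw [dif_pos j.2]; exact hj
  -- multilinear extension
  let Ψ : MultilinearMap ℤ (fun _ : Fin n => X →₀ ℤ) Q :=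
    (q.compMultilinearMap (prodML X n)).compLinearMap (fun _ => π)
  let Φ : MultilinearMap ℤ (fun _ : Fin n => X →₀ ℤ) Q :=
    ∑ σ : Perm (Fin n), (Perm.sign σ : ℤ) • Ψ.domDomCongr σ
  have hΦ : Φ = 0 := by
    refine Module.Basis.ext_multilinear (fun _ => Finsupp.basisSingleOne) ?_
    intro s
    simp only [Finsupp.coe_basisSingleOne]
    rw [MultilinearMap.zero_apply]
    have := hpt s
    rw [← this]
    simp only [Φ]
    rw [MultilinearMap.sum_apply]
    refine Finset.sum_congr rfl fun σ _ => ?_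
    rw [hTs]
    rfl
  have hΦa : ∑ σ : Perm (Fin n), (Perm.sign σ : ℤ) • q (prodML X n (fun i => π (a (σ i)))) = 0 := by
    have h1 := congrArg (fun g => g a) hΦ
    simp only [MultilinearMap.zero_apply, Φ] at h1
    rw [MultilinearMap.sum_apply] at h1
    rw [← h1]
    rfl
  rw [← hq, map_sum, ← hΦa]
  refine Finset.sum_congr rfl fun σ _ => ?_
  rw [map_smul]
  congr 1
  rw [eq_comm, ← sub_eq_zero, ← map_sub, hq]
  exact prodML_congr hM _ _ (fun i => albTrivial_sub o₁ o₂ (ha (σ i)))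

end Pool.Agent.W479
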