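import Pool.Agent.W479.Main
import Pool.Agent.W479.AlgSym
import Pool.Agent.W479.DefsSym

/-! Voisin's conjecture for symmetric squares of curves. -/

set_option autoImplicit false
set_option linter.all false

namespace Pool.Agent.W479

open FF Equiv

universe u v w

variable {k : Type u} [Field k] [CharZero k]

/-- pull-back of the push-forward to the symmetric square -/
noncomputable def symz {X : Type u} : ((X × X) →₀ ℤ) →ₗ[ℤ] ((X × X) →₀ ℤ) :=
  LinearMap.id + Finsupp.lmapDomain ℤ ℤ Prod.swap

theorem symz_apply {X : Type u} (a : (X × X) →₀ ℤ) : symz a = a + a.mapDomain Prod.swap := rfl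

/-- flip -/
def fl {X : Type u} (b : Bool) (s : X × X) : X × X := if b then s.swap else s

theorem symz_single {X : Type u} (s : X × X) :
    symz (Finsupp.single s 1) = ∑ b : Bool, Finsupp.single (fl b s) (1 : ℤ) := by
  rw [symz_apply, Finsupp.mapDomain_single, Fintype.sum_bool, add_comm]
  simp [fl]

theorem mainSymUp [IsAlgClosed k] {F : Type u} [Field F] [Algebra k F] [IsFF k F]
    {n : ℕ} (hn : genus k F * (genus k F - 1) / 2 < n)
    (a : Fin n → ((Place k F × Place k F) →₀ ℤ)) (ha : ∀ i, AlbTrivial (symz (a i))) :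
    ∑ σ : Perm (Fin n), (Perm.sign σ : ℤ) • prodCycle (fun i => symz (a (σ i))) ∈ RatTriv k F F n := by
  classical
  rw [RatTriv_eq]
  obtain ⟨o, -⟩ := exists_place (k := k) (K := F)
  let X := Place k F × Place k F
  let M : MorSys k X := mulSys (curveSys k F) (curveSys k F)
  have hM : HasConst M := mulSys_const (curveSys_const F) (curveSys_const F)
  change ∑ σ : Perm (Fin n), (Perm.sign σ : ℤ) • prodML X n (fun i => symz (a (σ i))) ∈ Rat (powSys M (Fin n))
  let π : (X →₀ ℤ) →ₗ[ℤ] (X →₀ ℤ) := lin wB (cB o o)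
  let Q := ((Fin n → X) →₀ ℤ) ⧸ Rat (powSys M (Fin n))
  let q : ((Fin n → X) →₀ ℤ) →ₗ[ℤ] Q := (QuotientAddGroup.mk' (Rat (powSys M (Fin n)))).toIntLinearMap
  have hq : ∀ t, q t = 0 ↔ t ∈ Rat (powSys M (Fin n)) := fun t => QuotientAddGroup.eq_zero_iff t
  let T : ((Fin n → X) →₀ ℤ) →ₗ[ℤ] Q := q ∘ₗ Lin wB (cB o o)
  have hc : ∀ (e : Bool × Bool) (L : Type u) [Field L] [Algebra k L] (φ : Place k L → X),
      φ ∈ M L → cB o o e ∘ φ ∈ M L := by
    rintro ⟨e1, e2⟩ L _ _ φ ⟨h1, h2⟩
    refine ⟨?_, ?_⟩
    · cases e1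
      · exact h1
      · exact Or.inl ⟨o, fun _ => rfl⟩
    · cases e2
      · exact h2
      · exact Or.inl ⟨o, fun _ => rfl⟩
  have hT : ∀ z ∈ Rat (powSys M (Fin n)), T z = 0 := by
    intro z hz
    change q (Lin wB (cB o o) z) = 0
    rw [hq]
    exact Lin_mem _ _ hc hz
  have hTs : ∀ s : Fin n → X, T (Finsupp.single s 1) = q (prodML X n (fun i => π (Finsupp.single (s i) 1))) := by
    intro s
    change q (Lin wB (cB o o) (Finsupp.single s 1)) = _
    rw [Lin_single]
  have hT1 : ∀ s : Fin n → X, (∃ i, (s i).1 = o) → T (Finsupp.single s 1) = 0 := by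
    rintro s ⟨i, hi⟩
    rw [hTs, prodML_zero_slot _ i, map_zero]
    have : s i = (o, (s i).2) := by rw [← hi]
    rw [this]
    exact lin_killed_fst o o _
  have hT2 : ∀ s : Fin n → X, (∃ i, (s i).2 = o) → T (Finsupp.single s 1) = 0 := by
    rintro s ⟨i, hi⟩
    rw [hTs, prodML_zero_slot _ i, map_zero]
    have : s i = ((s i).1, o) := by rw [← hi]
    rw [this]
    exact lin_killed_snd o o _
  let N := Fintype.card (Fin n × Bool)
  let e : Fin n × Bool ≃ Fin N := Fintype.equivFin _
  -- alternating sums of points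
  have hpt : ∀ s : Fin n → X, ∑ p : Perm (Fin n) × (Fin n → Bool),
      (Perm.sign p.1 : ℤ) • T (Finsupp.single (fun i => fl (p.2 i) (s (p.1 i))) 1) = 0 := by
    intro s
    let u : Fin N → Place k F := fun j => if (e.symm j).2 then (s (e.symm j).1).2 else (s (e.symm j).1).1
    let B : Perm (Fin N) → Q := fun τ =>
      T (Finsupp.single (fun i => (u (τ (e (i, false))), u (τ (e (i, true))))) 1)
    have hB : Alg.Killed (genus k F) B := by
      intro A hA τ
      let val : ({x // x ∈ A} → Place k F) → Fin N → Place k F := fun p j =>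
        if h : j ∈ A then p ⟨j, h⟩ else u (τ j)
      let G : ({x // x ∈ A} → Place k F) → (Fin n → X) := fun p i =>
        (val p (e (i, false)), val p (e (i, true)))
      have h1 := sym_kill (F := F) A hA (fun i => u (τ i.1)) o (powSys M (Fin n)) G ?_ T hT ?_
      · rw [← h1]
        refine Finset.sum_congr rfl fun ρ _ => ?_
        change T (Finsupp.single (fun i => (u ((τ * Perm.ofSubtype ρ) (e (i, false))),
          u ((τ * Perm.ofSubtype ρ) (e (i, true))))) 1) = _
        have h2 : ∀ j, u ((τ * Perm.ofSubtype ρ) j) = val ((fun i => u (τ i.1)) ∘ ρ) j := by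
          intro j
          simp only [val]
          by_cases h : j ∈ A
          · rw [dif_pos h, Perm.mul_apply, Perm.ofSubtype_apply_of_mem ρ h]; rfl
          · rw [dif_neg h, Perm.mul_apply, Perm.ofSubtype_apply_of_not_mem ρ h]
        congr 2
        funext i
        rw [h2, h2]
      · intro L _ _ φ hφ i
        have h3 : ∀ j, IsMor (fun w => val (φ w) j) := by
          intro j
          by_cases h : j ∈ A
          · simp only [val, dif_pos h]
            exact hφ ⟨j, h⟩
          · simp only [val, dif_neg h]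
            exact Or.inl ⟨u (τ j), fun _ => rfl⟩
        exact ⟨h3 _, h3 _⟩
      · rintro p ⟨⟨j, hj⟩, hjo⟩
        have h4 : val p j = o := by
          simp only [val]; rw [dif_pos hj]; exact hjo
        obtain ⟨⟨i, b⟩, rfl⟩ := e.surjective j
        cases b
        · exact hT1 _ ⟨i, h4⟩
        · exact hT2 _ ⟨i, h4⟩
    have h5 := Alg.symMain e hn B hB
    rw [← h5]
    refine Finset.sum_congr rfl fun p _ => ?_
    obtain ⟨σ, ε⟩ := p
    congr 1
    change _ = T (Finsupp.single (fun i => (u (e.permCongr (Alg.wr σ ε) (e (i, false))),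
      u (e.permCongr (Alg.wr σ ε) (e (i, true))))) 1)
    congr 2
    funext i
    have h6 : ∀ b, e.permCongr (Alg.wr σ ε) (e (i, b)) = e (σ i, xor b (ε i)) := by
      intro b
      rw [Equiv.permCongr_apply, Equiv.symm_apply_apply, Alg.wr_apply]
    rw [h6, h6]
    simp only [u, Equiv.symm_apply_apply]
    cases h : ε i
    · simp [fl]
    · simp [fl]; rfl
  -- multilinear extension
  let Ψ : MultilinearMap ℤ (fun _ : Fin n => X →₀ ℤ) Q :=
    (q.compMultilinearMap (prodML X n)).compLinearMap (fun _ => π ∘ₗ symz)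
  let Φ : MultilinearMap ℤ (fun _ : Fin n => X →₀ ℤ) Q :=
    ∑ σ : Perm (Fin n), (Perm.sign σ : ℤ) • Ψ.domDomCongr σ
  have hΦ : Φ = 0 := by
    refine Module.Basis.ext_multilinear (fun _ => Finsupp.basisSingleOne) ?_
    intro s
    simp only [Finsupp.coe_basisSingleOne]
    rw [MultilinearMap.zero_apply]
    have := hpt s
    rw [← this]
    simp only [Φ]
    rw [MultilinearMap.sum_apply, Fintype.sum_prod_type]
    refine Finset.sum_congr rfl fun σ _ => ?_
    change (Perm.sign σ : ℤ) • q (prodML X n (fun i => π (symz (Finsupp.single (s (σ i)) 1)))) =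
      ∑ ε : Fin n → Bool, (Perm.sign σ : ℤ) • T (Finsupp.single (fun i => fl (ε i) (s (σ i))) 1)
    rw [← Finset.smul_sum]
    congr 1
    have h7 : (fun i => π (symz (Finsupp.single (s (σ i)) 1))) =
        fun i => ∑ b : Bool, π (Finsupp.single (fl b (s (σ i))) 1) := by
      funext i
      rw [symz_single, map_sum]
    rw [h7, MultilinearMap.map_sum (prodML X n) (α := fun _ => Bool)
      (g := fun (i : Fin n) (b : Bool) => π (Finsupp.single (fl b (s (σ i))) 1)), map_sum]
    refine Finset.sum_congr rfl fun ε _ => ?_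
    rw [hTs]
  have hΦa : ∑ σ : Perm (Fin n), (Perm.sign σ : ℤ) • q (prodML X n (fun i => π (symz (a (σ i))))) = 0 := by
    have h1 := congrArg (fun g => g a) hΦ
    simp only [MultilinearMap.zero_apply, Φ] at h1
    rw [MultilinearMap.sum_apply] at h1
    rw [← h1]
    rfl
  rw [← hq, map_sum, ← hΦa]
  refine Finset.sum_congr rfl fun σ _ => ?_
  rw [map_smul]
  congr 1
  rw [eq_comm, ← sub_eq_zero, ← map_sub, hq]
  exact prodML_congr hM _ _ (fun i => albTrivial_sub o o (ha (σ i)))

/-- exterior products commute with push-forward -/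
theorem prodML_map {X Y : Type*} {n : ℕ} (f : X → Y) (c : Fin n → (X →₀ ℤ)) :
    (prodML X n c).mapDomain (fun z i => f (z i)) = prodML Y n (fun i => (c i).mapDomain f) := by
  have h : (Finsupp.lmapDomain ℤ ℤ (fun (z : Fin n → X) i => f (z i))).compMultilinearMap (prodML X n)
      = (prodML Y n).compLinearMap (fun _ => Finsupp.lmapDomain ℤ ℤ f) := by
    refine Module.Basis.ext_multilinear (fun _ => Finsupp.basisSingleOne) ?_
    intro s
    simp only [Finsupp.coe_basisSingleOne]
    change (prodML X n (fun i => Finsupp.single (s i) 1)).mapDomain (fun z i => f (z i)) =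
      prodML Y n (fun i => (Finsupp.single (s i) (1 : ℤ)).mapDomain f)
    rw [prodML_single, Finsupp.mapDomain_single]
    simp only [Finsupp.mapDomain_single]
    rw [prodML_single]
  exact congrArg (fun g => g c) h

theorem symPt_swap {X : Type u} (p : X × X) : symPt p.swap = symPt p := Sym2.eq_swap

theorem symPt_surj {X : Type u} : Function.Surjective (symPt : X × X → Sym2 X) := by
  intro s
  induction s using Sym2.inductionOn with
  | hf x y => exact ⟨(x, y), rfl⟩

theorem symz_push {X : Type u} (a : (X × X) →₀ ℤ) :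
    (symz a).mapDomain symPt = (2 : ℤ) • a.mapDomain symPt := by
  rw [symz_apply, Finsupp.mapDomain_add, ← Finsupp.mapDomain_comp, two_smul]
  congr 2
  funext p
  exact symPt_swap p

theorem sum_symDiv {X : Type u} (a : (X × X) →₀ ℤ) :
    (a.mapDomain symPt).sum (fun s m => m • symDiv s) = a.mapDomain Prod.fst + a.mapDomain Prod.snd := by
  rw [Finsupp.sum_mapDomain_index (by intro; simp) (by intros; rw [add_smul])]
  induction a using Finsupp.induction_linear with
  | zero => simp
  | add a b ha hb =>
    rw [Finsupp.sum_add_index' (by intro; simp) (by intros; rw [add_smul]), ha, hb]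
    simp only [Finsupp.mapDomain_add]
    abel
  | single p m =>
    rw [Finsupp.sum_single_index (by simp), Finsupp.mapDomain_single, Finsupp.mapDomain_single]
    change m • (Finsupp.single p.1 (1 : ℤ) + Finsupp.single p.2 1) = _
    simp [smul_add]

theorem deg_mapDomain {X Y : Type*} (f : X → Y) (a : X →₀ ℤ) :
    ((a.mapDomain f).sum fun _ m => m) = a.sum fun _ m => m :=
  Finsupp.sum_mapDomain_index (by intro; rfl) (by intros; rfl)

theorem mainSym [IsAlgClosed k] {F : Type u} [Field F] [Algebra k F] [IsFF k F]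
    {n : ℕ} (hn : genus k F * (genus k F - 1) / 2 < n)
    (b : Fin n → (Sym2 (Place k F) →₀ ℤ)) (hb : ∀ i, AlbTrivialSym (b i)) :
    (2 ^ n : ℤ) • ∑ σ : Perm (Fin n), (Perm.sign σ : ℤ) • prodCycle (fun i => b (σ i))
      ∈ RatTrivSym k F n := by
  classical
  have hlift : ∀ i, ∃ a : (Place k F × Place k F) →₀ ℤ, a.mapDomain symPt = b i := by
    intro i
    refine ⟨(b i).mapDomain (Function.surjInv symPt_surj), ?_⟩
    rw [← Finsupp.mapDomain_comp]
    have : (symPt ∘ Function.surjInv symPt_surj : Sym2 (Place k F) → Sym2 (Place k F)) = id :=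
      funext (Function.surjInv_eq symPt_surj)
    rw [this, Finsupp.mapDomain_id]
  choose a ha using hlift
  have hA : ∀ i, AlbTrivial (symz (a i)) := by
    intro i
    obtain ⟨h0, h1⟩ := hb i
    rw [← ha i] at h0 h1
    rw [deg_mapDomain] at h0
    rw [sum_symDiv] at h1
    refine ⟨?_, ?_, ?_⟩
    · rw [symz_apply, Finsupp.sum_add_index' (by intro; rfl) (by intros; rfl), deg_mapDomain, h0]
      rfl
    · rw [symz_apply, Finsupp.mapDomain_add, ← Finsupp.mapDomain_comp]
      exact h1
    · rw [symz_apply, Finsupp.mapDomain_add, ← Finsupp.mapDomain_comp, add_comm]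
      exact h1
  have h1 := mainSymUp hn a hA
  refine ⟨_, h1, ?_⟩
  rw [map_sum, Finset.smul_sum]
  refine Finset.sum_congr rfl fun σ _ => ?_
  rw [map_zsmul, smul_comm]
  congr 1
  change (prodML _ n (fun i => symz (a (σ i)))).mapDomain (fun z i => symPt (z i)) = _
  rw [prodML_map]
  simp only [symz_push, ha]
  rw [MultilinearMap.map_smul_univ (prodML _ n) (fun _ => (2 : ℤ)) (fun i => b (σ i))]
  simp [prodML_apply]

end Pool.Agent.W479
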