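import Pool.Agent.W479.Curve
import Pool.Agent.W479.Alg

/-! Exterior products as a multilinear map. -/

set_option autoImplicit false
set_option linter.all false

namespace Pool.Agent.W479

open FF

universe u v w

theorem prodCycle_apply {X : Type*} {n : ℕ} (a : Fin n → (X →₀ ℤ)) (x : Fin n → X) :
    prodCycle a x = ∏ i, a i (x i) := rfl

theorem prodCycle_update_apply {X : Type*} {n : ℕ} (a : Fin n → (X →₀ ℤ)) (i : Fin n) (c : X →₀ ℤ)
    (x : Fin n → X) :
    prodCycle (Function.update a i c) x = c (x i) * ∏ j ∈ Finset.univ.erase i, a j (x j) := by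
  rw [prodCycle_apply, ← Finset.mul_prod_erase _ _ (Finset.mem_univ i), Function.update_self]
  congr 1
  refine Finset.prod_congr rfl fun j hj => ?_
  rw [Function.update_of_ne (Finset.ne_of_mem_erase hj)]

/-- exterior product as a multilinear map -/
noncomputable def prodML (X : Type*) (n : ℕ) :
    MultilinearMap ℤ (fun _ : Fin n => X →₀ ℤ) ((Fin n → X) →₀ ℤ) where
  toFun a := prodCycle a
  map_update_add' := by
    intro inst a i b c
    have : inst = fun a b => instDecidableEqFin n a b := Subsingleton.elim _ _
    subst this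
    ext x
    rw [Finsupp.add_apply, prodCycle_update_apply, prodCycle_update_apply, prodCycle_update_apply,
      Finsupp.add_apply, add_mul]
  map_update_smul' := by
    intro inst a i m c
    have : inst = fun a b => instDecidableEqFin n a b := Subsingleton.elim _ _
    subst this
    ext x
    rw [Finsupp.smul_apply, prodCycle_update_apply, prodCycle_update_apply,
      Finsupp.smul_apply, smul_eq_mul, smul_eq_mul, mul_assoc]

theorem prodML_apply {X : Type*} {n : ℕ} (a : Fin n → (X →₀ ℤ)) : prodML X n a = prodCycle a := rfl

theorem prodML_single {X : Type*} {n : ℕ} (s : Fin n → X) :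
    prodML X n (fun i => Finsupp.single (s i) 1) = Finsupp.single s 1 := by
  classical
  ext x
  rw [prodML_apply, prodCycle_apply]
  simp only [Finsupp.single_apply]
  rw [Finset.prod_boole]
  by_cases h : s = x
  · subst h; simp
  · rw [if_neg h, if_neg]
    intro h'
    exact h (funext fun i => h' i (Finset.mem_univ _))

theorem prodML_update_single {X : Type*} {n : ℕ} (s : Fin n → X) (i : Fin n) (z : X →₀ ℤ) :
    prodML X n (Function.update (fun j => Finsupp.single (s j) (1 : ℤ)) i z)
        = z.mapDomain (fun t => Function.update s i t) := by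
  classical
  induction z using Finsupp.induction_linear with
  | zero => simp
  | add a b ha hb =>
    rw [MultilinearMap.map_update_add, ha, hb, Finsupp.mapDomain_add]
  | single t m =>
    rw [Finsupp.mapDomain_single]
    have h3 : Finsupp.single t m = m • Finsupp.single t (1 : ℤ) := by simp
    rw [h3, MultilinearMap.map_update_smul]
    have h4 : Function.update (fun j => Finsupp.single (s j) (1 : ℤ)) i (Finsupp.single t 1)
        = fun j => Finsupp.single (Function.update s i t j) 1 := by
      funext j
      by_cases hj : j = i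
      · subst hj; simp
      · rw [Function.update_of_ne hj, Function.update_of_ne hj]
    rw [h4, prodML_single]
    simp

/-- combination of push-forwards -/
noncomputable def lin {X : Type*} {E : Type} [Fintype E] (w : E → ℤ) (c : E → X → X) :
    (X →₀ ℤ) →ₗ[ℤ] (X →₀ ℤ) := ∑ e, w e • Finsupp.lmapDomain ℤ ℤ (c e)

theorem lin_single {X : Type*} {E : Type} [Fintype E] (w : E → ℤ) (c : E → X → X) (s : X) :
    lin w c (Finsupp.single s 1) = ∑ e, w e • Finsupp.single (c e s) 1 := by
  unfold lin
  rw [LinearMap.sum_apply]
  refine Finset.sum_congr rfl fun e _ => ?_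
  rw [LinearMap.smul_apply, Finsupp.lmapDomain_apply, Finsupp.mapDomain_single]

theorem prodML_lin {X : Type*} {n : ℕ} {E : Type} [Fintype E] [DecidableEq E] (w : E → ℤ) (c : E → X → X)
    (s : Fin n → X) :
    prodML X n (fun i => lin w c (Finsupp.single (s i) 1)) =
      ∑ r : Fin n → E, (∏ i, w (r i)) • Finsupp.single (fun i => c (r i) (s i)) 1 := by
  have h1 : (fun i => lin w c (Finsupp.single (s i) 1)) =
      fun i => ∑ e : E, w e • Finsupp.single (c e (s i)) (1 : ℤ) := by
    funext i
    rw [lin_single]
  rw [h1]
  have h2 := MultilinearMap.map_sum (prodML X n) (α := fun _ => E)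
    (g := fun (i : Fin n) (e : E) => w e • Finsupp.single (c e (s i)) (1 : ℤ))
  rw [h2]
  refine Finset.sum_congr rfl fun r _ => ?_
  rw [MultilinearMap.map_smul_univ (prodML X n) (fun i => w (r i))
    (fun i => Finsupp.single (c (r i) (s i)) (1 : ℤ)), prodML_single]

variable {k : Type u} [Field k] [CharZero k]

/-- the operator on `X^n` -/
noncomputable def Lin {X : Type*} {n : ℕ} {E : Type} [Fintype E] (w : E → ℤ) (c : E → X → X) :
    ((Fin n → X) →₀ ℤ) →ₗ[ℤ] ((Fin n → X) →₀ ℤ) :=
  ∑ r : Fin n → E, (∏ i, w (r i)) • Finsupp.lmapDomain ℤ ℤ (fun s i => c (r i) (s i))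

theorem Lin_single {X : Type*} {n : ℕ} {E : Type} [Fintype E] [DecidableEq E] (w : E → ℤ) (c : E → X → X)
    (s : Fin n → X) :
    Lin w c (Finsupp.single s 1) = prodML X n (fun i => lin w c (Finsupp.single (s i) 1)) := by
  rw [prodML_lin]
  unfold Lin
  rw [LinearMap.sum_apply]
  refine Finset.sum_congr rfl fun r _ => ?_
  rw [LinearMap.smul_apply, Finsupp.lmapDomain_apply, Finsupp.mapDomain_single]

theorem Lin_mem {X : Type v} {n : ℕ} {E : Type} [Fintype E] {M : MorSys k X} (w : E → ℤ) (c : E → X → X)
    (hc : ∀ (e : E) (L : Type u) [Field L] [Algebra k L] (φ : Place k L → X), φ ∈ M L → c e ∘ φ ∈ M L)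
    {z : (Fin n → X) →₀ ℤ} (hz : z ∈ Rat (powSys M (Fin n))) :
    Lin w c z ∈ Rat (powSys M (Fin n)) := by
  unfold Lin
  rw [LinearMap.sum_apply]
  apply sum_mem
  intro r _
  rw [LinearMap.smul_apply]
  apply zsmul_mem
  refine Rat_push _ ?_ hz
  intro L _ _ φ hφ i
  exact hc (r i) L _ (hφ i)

/-- rational equivalence in one slot -/
theorem slot_mem {X : Type v} {n : ℕ} {M : MorSys k X} (hM : HasConst M) (a : Fin n → (X →₀ ℤ))
    (i : Fin n) {z : X →₀ ℤ} (hz : z ∈ Rat M) :
    prodML X n (Function.update a i z) ∈ Rat (powSys M (Fin n)) := by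
  classical
  by_cases hX : IsEmpty X
  · have : z = 0 := by ext x; exact hX.elim x
    rw [this, MultilinearMap.map_update_zero]
    exact zero_mem _
  rw [not_isEmpty_iff] at hX
  obtain ⟨x0⟩ := hX
  let Q := ((Fin n → X) →₀ ℤ) ⧸ Rat (powSys M (Fin n))
  let q : ((Fin n → X) →₀ ℤ) →ₗ[ℤ] Q := (QuotientAddGroup.mk' (Rat (powSys M (Fin n)))).toIntLinearMap
  have hq : ∀ t, q t = 0 ↔ t ∈ Rat (powSys M (Fin n)) := fun t => QuotientAddGroup.eq_zero_iff t
  let dg : (X →₀ ℤ) →ₗ[ℤ] ℤ := Finsupp.linearCombination ℤ (fun _ => (1 : ℤ))
  let f : Fin n → ((X →₀ ℤ) →ₗ[ℤ] (X →₀ ℤ)) := Function.update (fun _ => LinearMap.id) i (dg.smulRight z)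
  let Ψ : MultilinearMap ℤ (fun _ : Fin n => X →₀ ℤ) Q :=
    (q.compMultilinearMap (prodML X n)).compLinearMap f
  have hΨ : Ψ = 0 := by
    refine Module.Basis.ext_multilinear (fun _ => Finsupp.basisSingleOne) ?_
    intro s
    simp only [Finsupp.coe_basisSingleOne]
    change q (prodML X n (fun j => f j (Finsupp.single (s j) 1))) = 0
    rw [hq]
    have h1 : (fun j => f j (Finsupp.single (s j) 1)) =
        Function.update (fun j => Finsupp.single (s j) (1 : ℤ)) i z := by
      funext j
      by_cases hj : j = i
      · subst hj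
        rw [Function.update_self]
        simp [f, dg]
      · rw [Function.update_of_ne hj]
        simp [f, Function.update_of_ne hj]
    rw [h1]
    have h2 := prodML_update_single s i z
    rw [h2]
    refine Rat_push _ ?_ hz
    intro L _ _ φ hφ j
    by_cases hj : j = i
    · subst hj
      simpa using hφ
    · simp only [Function.comp, Function.update_of_ne hj]
      exact hM L (s j)
  have h5 := congrArg (fun g => g (Function.update a i (Finsupp.single x0 1))) hΨ
  simp only [MultilinearMap.zero_apply] at h5
  change q (prodML X n (fun j => f j (Function.update a i (Finsupp.single x0 1) j))) = 0 at h5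
  rw [hq] at h5
  have h6 : (fun j => f j (Function.update a i (Finsupp.single x0 1) j)) = Function.update a i z := by
    funext j
    by_cases hj : j = i
    · subst hj
      rw [Function.update_self, Function.update_self]
      simp [f, dg]
    · rw [Function.update_of_ne hj, Function.update_of_ne hj]
      simp [f, Function.update_of_ne hj]
  rw [h6] at h5
  exact h5

theorem prodML_congr {X : Type v} {n : ℕ} {M : MorSys k X} (hM : HasConst M) (a b : Fin n → (X →₀ ℤ))
    (h : ∀ i, b i - a i ∈ Rat M) :
    prodML X n b - prodML X n a ∈ Rat (powSys M (Fin n)) := by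
  classical
  suffices H : ∀ T : Finset (Fin n), prodML X n (T.piecewise b a) - prodML X n a ∈ Rat (powSys M (Fin n)) by
    have := H Finset.univ
    rwa [Finset.piecewise_univ] at this
  intro T
  induction T using Finset.induction_on with
  | empty => rw [Finset.piecewise_empty, sub_self]; exact zero_mem _
  | insert i T hi ih =>
    rw [Finset.piecewise_insert]
    have h1 : b i = a i + (b i - a i) := by abel
    rw [h1, MultilinearMap.map_update_add]
    have h2 : Function.update (T.piecewise b a) i (a i) = T.piecewise b a := by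
      have : a i = T.piecewise b a i := by rw [Finset.piecewise_eq_of_notMem _ _ _ hi]
      rw [this, Function.update_eq_self]
    rw [h2]
    have h3 := slot_mem hM (T.piecewise b a) i (h i)
    have h4 : prodML X n (T.piecewise b a) + prodML X n (Function.update (T.piecewise b a) i (b i - a i))
        - prodML X n a = (prodML X n (T.piecewise b a) - prodML X n a)
          + prodML X n (Function.update (T.piecewise b a) i (b i - a i)) := by abel
    rw [h4]
    exact add_mem ih h3

end Pool.Agent.W479
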