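import Pool.Agent.W375.MT.Sum
import Pool.Agent.W749.NM.Stm

/-!
# NM-SUMN: the class of the jets (naive local zeta function)
-/

set_option autoImplicit false

namespace Pool.Agent.W479.NMSum

open MvPolynomial
open Pool.Agent.W428.MOT
open Pool.Agent.W426.SM (AffInd gord ford IsRay face)
open Pool.Agent.W749.NM
open Pool.Agent.W375.MT (weight_eq ev_cp chi_empty)

/-- (SUMN) -/
theorem main (h1 : S_JetN) (h2 : S_ShiftN) (h3 : S_CondN) (h4 : S_StBN) (h5 : S_StCN) :
    S_SumN := by
  classical
  intro K _ _ R _ M n r A m c e x J hJ hm hc hr he Y hY N hN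
  set U := (Fintype.piFinset fun _ : Fin n => Finset.range (N + 2)).filter (Adm J) with hU
  have key : ∀ u ∈ U, M.χ (Fin n × Fin (2 * N + 1 + 1)) (stratN (sp A m c e) x N u) *
      Y ^ (n * (2 * N + 1)) =
      M.L ^ (free A m J (amin m u)).card * (M.χ _ (B0N A m c e x J (amin m u)) *
        (if ford A m e u = N then
          Polynomial.eval₂ (Int.castRingHom R) Y (wt A m J (amin m u) N u) else 0) +
        ∑ l ∈ Finset.Icc 1 N, if e * l ≤ N then
          M.χ _ (B1N A m c e x J (amin m u)) * Y ^ l *
            (if ford A m e u = N - e * l then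
              Polynomial.eval₂ (Int.castRingHom R) Y (wt A m J (amin m u) N u) else 0)
          else 0) := by
    intro u hu
    rw [hU, Finset.mem_filter, Fintype.mem_piFinset] at hu
    obtain ⟨hu1, hA⟩ := hu
    have hu' : ∀ i, u i ≤ N + 1 := by
      intro i
      have := Finset.mem_range.1 (hu1 i)
      omega
    rw [h2 M (sp A m c e) x J hJ N hN u hA hu']
    have hset : (Y0 x N u ∩ {y | (∀ j < N, PowerSeries.coeff j
          (aeval (fun i => PowerSeries.X ^ u i * arc y i) (sp A m c e)) = 0) ∧
        PowerSeries.coeff N (aeval (fun i => PowerSeries.X ^ u i * arc y i) (sp A m c e)) ≠ 0}) =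
        Y0 x N u ∩ {y | ∃ l, ford A m e u + e * l = N ∧
          (∀ k < l, PowerSeries.coeff k (gser m (cb c) (del m u) (arc y)) = 0) ∧
          (∏ i, y (i, 0) ^ A i) *
            (PowerSeries.coeff l (gser m (cb c) (del m u) (arc y))) ^ e ≠ 0} := by
      ext y
      simp only [Set.mem_inter_iff, Set.mem_ofPred_eq]
      constructor
      · rintro ⟨ha, hb⟩
        exact ⟨ha, (h3 A m c e x J hJ hr he N hN u hA hu' y ha).1 hb⟩
      · rintro ⟨ha, hb⟩
        exact ⟨ha, (h3 A m c e x J hJ hr he N hN u hA hu' y ha).2 hb⟩
    rw [hset]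
    have hw := weight_eq A m J (amin m u) N u hu' M.L Y hY
    by_cases hex : ∃ l, ford A m e u + e * l = N
    · obtain ⟨l, hl⟩ := hex
      have huniq : ∀ l', ford A m e u + e * l' = N → l' = l := by
        intro l' hl'
        have : e * l' = e * l := by omega
        exact Nat.eq_of_mul_eq_mul_left he this
      have hset2 : (Y0 x N u ∩ {y | ∃ l, ford A m e u + e * l = N ∧
          (∀ k < l, PowerSeries.coeff k (gser m (cb c) (del m u) (arc y)) = 0) ∧
          (∏ i, y (i, 0) ^ A i) *
            (PowerSeries.coeff l (gser m (cb c) (del m u) (arc y))) ^ e ≠ 0}) =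
          Y0 x N u ∩ {y | (∀ k < l, PowerSeries.coeff k (gser m (cb c) (del m u) (arc y)) = 0) ∧
          (∏ i, y (i, 0) ^ A i) *
            (PowerSeries.coeff l (gser m (cb c) (del m u) (arc y))) ^ e ≠ 0} := by
        ext y
        simp only [Set.mem_inter_iff, Set.mem_ofPred_eq]
        constructor
        · rintro ⟨ha, l', hl', hb⟩
          rw [huniq l' hl'] at hb
          exact ⟨ha, hb⟩
        · rintro ⟨ha, hb⟩
          exact ⟨ha, l, hl, hb⟩
      rw [hset2]
      rcases Nat.eq_zero_or_pos l with rfl | hlpos
      · have hN' : ford A m e u = N := by omega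
        have h6 := h4 M A m c e x J hJ hm hc hr he N hN u hA hu' hN'
        simp only [Nat.not_lt_zero, false_implies, implies_true, true_and]
        rw [h6, if_pos hN']
        have hz : (∑ l ∈ Finset.Icc 1 N, if e * l ≤ N then
          M.χ _ (B1N A m c e x J (amin m u)) * Y ^ l *
            (if ford A m e u = N - e * l then
              Polynomial.eval₂ (Int.castRingHom R) Y (wt A m J (amin m u) N u) else 0)
          else 0) = 0 := by
          refine Finset.sum_eq_zero fun l hl1 => ?_
          rw [Finset.mem_Icc] at hl1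
          have hel : 0 < e * l := Nat.mul_pos he (by omega)
          split_ifs with h7 h8
          · exfalso
            omega
          · rw [mul_zero]
          · rfl
        rw [hz, add_zero]
        linear_combination (M.χ _ (B0N A m c e x J (amin m u))) * hw
      · have h6 := h5 M A m c e x J hJ hm hc hr he N hN u hA hu' l hlpos hl
        have hel : 0 < e * l := Nat.mul_pos he hlpos
        have hlN : l ≤ N := le_trans (Nat.le_mul_of_pos_left l he) (by omega)
        rw [if_neg (by omega), mul_zero, zero_add]
        have hz : (∑ l ∈ Finset.Icc 1 N, if e * l ≤ N then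
          M.χ _ (B1N A m c e x J (amin m u)) * Y ^ l *
            (if ford A m e u = N - e * l then
              Polynomial.eval₂ (Int.castRingHom R) Y (wt A m J (amin m u) N u) else 0)
          else 0) = M.χ _ (B1N A m c e x J (amin m u)) * Y ^ l *
              Polynomial.eval₂ (Int.castRingHom R) Y (wt A m J (amin m u) N u) := by
          rw [Finset.sum_eq_single l]
          · rw [if_pos (by omega), if_pos (by omega)]
          · intro l' _ hne
            split_ifs with h7 h8
            · exact absurd (huniq l' (by omega)) hne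
            · rw [mul_zero]
            · rfl
          · intro h9
            exact absurd (Finset.mem_Icc.2 ⟨hlpos, hlN⟩) h9
        rw [hz]
        have h10 : M.L ^ l * Y ^ l = 1 := by rw [← mul_pow, hY, one_pow]
        have h11 : M.χ _ (Y0 x N u ∩ {y |
            (∀ k < l, PowerSeries.coeff k (gser m (cb c) (del m u) (arc y)) = 0) ∧
            (∏ i, y (i, 0) ^ A i) *
              (PowerSeries.coeff l (gser m (cb c) (del m u) (arc y))) ^ e ≠ 0}) =
            (M.χ _ (B1N A m c e x J (amin m u)) *
            (M.L - 1) ^ ((free A m J (amin m u)).filter fun i => u i ≤ N).card *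
            M.L ^ ((free A m J (amin m u)).filter fun i => ¬ u i ≤ N).card *
            M.L ^ (∑ i, (2 * N + 1 - u i))) * Y ^ l := by
          rw [← h6, mul_assoc, h10, mul_one]
        rw [h11]
        linear_combination (M.χ _ (B1N A m c e x J (amin m u)) * Y ^ l) * hw
    · have hset2 : (Y0 x N u ∩ {y | ∃ l, ford A m e u + e * l = N ∧
          (∀ k < l, PowerSeries.coeff k (gser m (cb c) (del m u) (arc y)) = 0) ∧
          (∏ i, y (i, 0) ^ A i) *
            (PowerSeries.coeff l (gser m (cb c) (del m u) (arc y))) ^ e ≠ 0}) = ∅ := by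
        ext y
        simp only [Set.mem_inter_iff, Set.mem_ofPred_eq, Set.mem_empty_iff_false, iff_false]
        rintro ⟨-, l, hl, -⟩
        exact hex ⟨l, hl⟩
      rw [hset2, chi_empty, zero_mul, if_neg (fun h => hex ⟨0, by simpa using h⟩), mul_zero,
        zero_add]
      have hz : (∑ l ∈ Finset.Icc 1 N, if e * l ≤ N then
        M.χ _ (B1N A m c e x J (amin m u)) * Y ^ l *
          (if ford A m e u = N - e * l then
            Polynomial.eval₂ (Int.castRingHom R) Y (wt A m J (amin m u) N u) else 0)
        else 0) = 0 := by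
        refine Finset.sum_eq_zero fun l _ => ?_
        split_ifs with h7 h8
        · exact absurd ⟨l, by omega⟩ hex
        · rw [mul_zero]
        · rfl
      rw [hz, mul_zero]
  have hJet := h1 M (sp A m c e) x J hJ N hN
  have e1 : M.χ _ (JetN (sp A m c e) x N) * Y ^ (n * N) =
      (M.χ (Fin n × Fin (N + 1)) (JetN (sp A m c e) x N) * M.L ^ (n * (N + 1))) *
        Y ^ (n * (2 * N + 1)) := by
    have h12 : M.L ^ (n * (N + 1)) * Y ^ (n * (2 * N + 1)) = Y ^ (n * N) := by
      have h13 : n * (2 * N + 1) = n * (N + 1) + n * N := by ring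
      rw [h13, pow_add, ← mul_assoc, ← mul_pow, hY, one_pow, one_mul]
    rw [mul_assoc, h12]
  rw [e1, hJet, Finset.sum_mul, Finset.sum_congr rfl key]
  rw [← Finset.sum_fiberwise U (fun u => amin m u)]
  refine Finset.sum_congr rfl fun τ _ => ?_
  have e2 : ∀ u ∈ U.filter (fun u => amin m u = τ), (M.L ^ (free A m J (amin m u)).card *
      (M.χ _ (B0N A m c e x J (amin m u)) *
        (if ford A m e u = N then
          Polynomial.eval₂ (Int.castRingHom R) Y (wt A m J (amin m u) N u) else 0) +
        ∑ l ∈ Finset.Icc 1 N, if e * l ≤ N then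
          M.χ _ (B1N A m c e x J (amin m u)) * Y ^ l *
            (if ford A m e u = N - e * l then
              Polynomial.eval₂ (Int.castRingHom R) Y (wt A m J (amin m u) N u) else 0)
          else 0)) = M.L ^ (free A m J τ).card *
      (M.χ _ (B0N A m c e x J τ) *
        (if ford A m e u = N then
          Polynomial.eval₂ (Int.castRingHom R) Y (wt A m J τ N u) else 0) +
        ∑ l ∈ Finset.Icc 1 N, if e * l ≤ N then
          M.χ _ (B1N A m c e x J τ) * Y ^ l *
            (if ford A m e u = N - e * l then
              Polynomial.eval₂ (Int.castRingHom R) Y (wt A m J τ N u) else 0)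
          else 0) := by
    intro u hu
    rw [(Finset.mem_filter.1 hu).2]
  rw [Finset.sum_congr rfl e2, ← Finset.mul_sum, Finset.sum_add_distrib, ← Finset.mul_sum,
    Finset.sum_comm, ev_cp]
  congr 2
  refine Finset.sum_congr rfl fun l _ => ?_
  split_ifs with h7
  · rw [← Finset.mul_sum, ev_cp]
  · exact Finset.sum_const_zero

end Pool.Agent.W479.NMSum
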