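import Pool.Agent.W479.Defs

/-! Rational equivalence of 0-cycles for sets with test curves. -/

set_option autoImplicit false
set_option linter.all false

namespace Pool.Agent.W479

open FF

universe u v w

/-- A system of test curves on a set `X`. -/
def MorSys (k : Type u) [Field k] (X : Type v) : Type (max (u+1) v) :=
  ∀ (L : Type u) [Field L] [Algebra k L], Set (Place k L → X)

variable {k : Type u} [Field k] [CharZero k]

/-- rational equivalence -/
noncomputable def Rat {X : Type v} (M : MorSys k X) : AddSubgroup (X →₀ ℤ) :=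
  AddSubgroup.closure {z | ∃ (L : Type u) (_ : Field L) (_ : Algebra k L) (_ : IsFF k L)
    (φ : Place k L → X) (h : L), φ ∈ M L ∧ h ≠ 0 ∧ z = (divisor k h).mapDomain φ}

theorem Rat_push {X : Type v} {Y : Type w} {M : MorSys k X} {N : MorSys k Y} (f : X → Y)
    (hf : ∀ (L : Type u) [Field L] [Algebra k L] (φ : Place k L → X), φ ∈ M L → f ∘ φ ∈ N L)
    {z : X →₀ ℤ} (hz : z ∈ Rat M) : z.mapDomain f ∈ Rat N := by
  have hle : Rat M ≤ (Rat N).comap (Finsupp.mapDomain.addMonoidHom (M := ℤ) f) := by
    unfold Rat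
    rw [AddSubgroup.closure_le]
    rintro _ ⟨L, _, _, _, φ, h, h1, h2, rfl⟩
    apply AddSubgroup.subset_closure
    refine ⟨L, inferInstance, inferInstance, inferInstance, f ∘ φ, h, hf L φ h1, h2, ?_⟩
    change Finsupp.mapDomain f (Finsupp.mapDomain φ _) = _
    rw [← Finsupp.mapDomain_comp]
  exact hle hz

/-- The system of test curves of a curve. -/
def curveSys (k F : Type u) [Field k] [Field F] [Algebra k F] : MorSys k (Place k F) :=
  fun L _ _ => {φ | IsMor φ}

/-- the power -/
def powSys {X : Type v} (M : MorSys k X) (ι : Type w) : MorSys k (ι → X) :=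
  fun L _ _ => {φ | ∀ i, (fun w => φ w i) ∈ M L}

/-- the product -/
def mulSys {X : Type v} {Y : Type w} (M : MorSys k X) (N : MorSys k Y) : MorSys k (X × Y) :=
  fun L _ _ => {φ | (fun w => (φ w).1) ∈ M L ∧ (fun w => (φ w).2) ∈ N L}

/-- constants are allowed -/
def HasConst {X : Type v} (M : MorSys k X) : Prop :=
  ∀ (L : Type u) [Field L] [Algebra k L] (x : X), (fun _ : Place k L => x) ∈ M L

theorem curveSys_const (F : Type u) [Field F] [Algebra k F] : HasConst (curveSys k F) :=
  fun L _ _ x => Or.inl ⟨x, fun _ => rfl⟩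

theorem powSys_const {X : Type v} {M : MorSys k X} (h : HasConst M) (ι : Type w) :
    HasConst (powSys M ι) := fun L _ _ x i => h L (x i)

theorem mulSys_const {X : Type v} {Y : Type w} {M : MorSys k X} {N : MorSys k Y} (h : HasConst M)
    (h' : HasConst N) : HasConst (mulSys M N) := fun L _ _ x => ⟨h L x.1, h' L x.2⟩

theorem RatTriv_eq (F₁ F₂ : Type u) [Field F₁] [Algebra k F₁] [Field F₂] [Algebra k F₂] (n : ℕ) :
    RatTriv k F₁ F₂ n = Rat (powSys (mulSys (curveSys k F₁) (curveSys k F₂)) (Fin n)) := by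
  unfold RatTriv Rat
  congr 1
  ext z
  constructor
  · rintro ⟨L, _, _, _, φ, ψ, h, h1, h2, h3, rfl⟩
    exact ⟨L, inferInstance, inferInstance, inferInstance, fun w i => (φ i w, ψ i w), h,
      fun i => ⟨h1 i, h2 i⟩, h3, rfl⟩
  · rintro ⟨L, _, _, _, φ, h, h1, h2, rfl⟩
    exact ⟨L, inferInstance, inferInstance, inferInstance, fun i w => (φ w i).1,
      fun i w => (φ w i).2, h, fun i => (h1 i).1, fun i => (h1 i).2, h2, rfl⟩

theorem principal_mem {F : Type u} [Field F] [Algebra k F] [IsFF k F] {D : Place k F →₀ ℤ}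
    (hD : Principal D) : D ∈ Rat (curveSys k F) := by
  obtain ⟨f, hf, rfl⟩ := hD
  apply AddSubgroup.subset_closure
  refine ⟨F, inferInstance, inferInstance, inferInstance, id, f, ?_, hf, ?_⟩
  · right
    exact ⟨AlgHom.id k F, fun w f => Iff.rfl⟩
  · rw [Finsupp.mapDomain_id]

/-! ### Exterior product with a cycle on an extra coordinate -/

/-- adding a coordinate -/
def addC {X : Type v} {ι : Type w} (p : ι → X) (q : X) : Option ι → X := fun o => o.elim q p

/-- exterior product `z × D` -/
noncomputable def bx {X : Type v} {ι : Type w} :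
    ((ι → X) →₀ ℤ) →ₗ[ℤ] (X →₀ ℤ) →ₗ[ℤ] ((Option ι → X) →₀ ℤ) :=
  Finsupp.linearCombination ℤ (fun p => Finsupp.lmapDomain ℤ ℤ (addC p))

theorem bx_single_left {X : Type v} {ι : Type w} (p : ι → X) (m : ℤ) (D : X →₀ ℤ) :
    bx (Finsupp.single p m) D = m • D.mapDomain (addC p) := by
  unfold bx
  rw [Finsupp.linearCombination_single]
  rfl

theorem bx_single_right {X : Type v} {ι : Type w} (z : (ι → X) →₀ ℤ) (q : X) (m : ℤ) :
    bx z (Finsupp.single q m) = m • z.mapDomain (fun p => addC p q) := by
  induction z using Finsupp.induction_linear with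
  | zero => simp
  | add f g hf hg => rw [map_add, LinearMap.add_apply, hf, hg, Finsupp.mapDomain_add, smul_add]
  | single p l =>
    rw [bx_single_left, Finsupp.mapDomain_single, Finsupp.mapDomain_single, Finsupp.smul_single,
      Finsupp.smul_single, smul_eq_mul, smul_eq_mul, mul_comm]

theorem bx_mem_left {X : Type v} {ι : Type w} {M : MorSys k X} (hM : HasConst M)
    {z : (ι → X) →₀ ℤ} (hz : z ∈ Rat (powSys M ι)) (D : X →₀ ℤ) :
    bx z D ∈ Rat (powSys M (Option ι)) := by
  induction D using Finsupp.induction_linear with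
  | zero => rw [map_zero]; exact zero_mem _
  | add f g hf hg => rw [map_add]; exact add_mem hf hg
  | single q m =>
    rw [bx_single_right]
    apply zsmul_mem
    refine Rat_push (fun p => addC p q) ?_ hz
    intro L _ _ φ hφ o
    cases o with
    | none => exact hM L q
    | some i => exact hφ i

theorem bx_mem_right {X : Type v} {ι : Type w} {M : MorSys k X} (hM : HasConst M)
    (z : (ι → X) →₀ ℤ) {D : X →₀ ℤ} (hD : D ∈ Rat M) :
    bx z D ∈ Rat (powSys M (Option ι)) := by
  induction z using Finsupp.induction_linear with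
  | zero => rw [map_zero]; exact zero_mem _
  | add f g hf hg => rw [map_add]; exact add_mem hf hg
  | single p m =>
    rw [bx_single_left]
    apply zsmul_mem
    refine Rat_push (addC p) ?_ hD
    intro L _ _ φ hφ o
    cases o with
    | none => exact hφ
    | some i => exact hM L (p i)

/-! ### Sums over injections -/

open Classical in
/-- `∑` over injections `f : ι → J` of the point `p ∘ f`. -/
noncomputable def inj {X : Type v} (ι J : Type) [Finite ι] [Finite J] (p : J → X) : (ι → X) →₀ ℤ :=
  letI := Fintype.ofFinite (ι ↪ J)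
  ∑ f : ι ↪ J, Finsupp.single (p ∘ f) 1

/-- The divisor of a family of points. -/
noncomputable def dsum {X : Type v} {J : Type} [Fintype J] (p : J → X) : X →₀ ℤ :=
  ∑ j, Finsupp.single (p j) 1

theorem inj_eq {X : Type v} (ι J : Type) [Finite ι] [Finite J] [Fintype (ι ↪ J)] (p : J → X) :
    inj ι J p = ∑ f : ι ↪ J, Finsupp.single (p ∘ f) 1 := by
  unfold inj
  refine Finset.sum_congr ?_ fun _ _ => rfl
  ext; simp

theorem inj_equiv {X : Type v} {ι ι' J : Type} [Finite ι] [Finite ι'] [Finite J] (e : ι ≃ ι') (p : J → X) :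
    inj ι' J p = (inj ι J p).mapDomain (fun x => x ∘ e.symm) := by
  classical
  letI := Fintype.ofFinite (ι ↪ J)
  letI := Fintype.ofFinite (ι' ↪ J)
  rw [inj_eq, inj_eq, Finsupp.mapDomain_finset_sum]
  rw [← Equiv.sum_comp (Equiv.embeddingCongr e (Equiv.refl J))]
  refine Finset.sum_congr rfl fun f _ => ?_
  rw [Finsupp.mapDomain_single]
  congr 1

theorem inj_empty {X : Type v} {ι J : Type} [Finite ι] [Finite J] [IsEmpty ι] (p q : J → X) :
    inj ι J p = inj ι J q := by
  classical
  letI := Fintype.ofFinite (ι ↪ J)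
  rw [inj_eq, inj_eq]
  refine Finset.sum_congr rfl fun f _ => ?_
  congr 1
  funext i
  exact isEmptyElim i

theorem inj_option {X : Type v} {ι J : Type} [Fintype ι] [Fintype J] (p : J → X) :
    inj (Option ι) J p = bx (inj ι J p) (dsum p)
      - ∑ s : ι, (inj ι J p).mapDomain (fun x : ι → X => addC x (x s)) := by
  classical
  letI : Fintype (ι ↪ J) := Fintype.ofFinite (ι ↪ J)
  letI : Fintype (Option ι ↪ J) := Fintype.ofFinite (Option ι ↪ J)
  rw [eq_sub_iff_add_eq]
  rw [inj_eq, inj_eq, map_sum, LinearMap.sum_apply]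
  have h1 : ∀ f : ι ↪ J, bx (Finsupp.single (p ∘ f) 1) (dsum p)
      = ∑ j, Finsupp.single (addC (p ∘ f) (p j)) (1 : ℤ) := by
    intro f
    rw [bx_single_left, one_smul, dsum, Finsupp.mapDomain_finset_sum]
    refine Finset.sum_congr rfl fun j _ => ?_
    rw [Finsupp.mapDomain_single]
  have h2 : ∀ s : ι, Finsupp.mapDomain (fun x : ι → X => addC x (x s))
      (∑ f : ι ↪ J, Finsupp.single (p ∘ f) (1 : ℤ)) = ∑ f : ι ↪ J, Finsupp.single (addC (p ∘ f) (p (f s))) 1 := by
    intro s
    rw [Finsupp.mapDomain_finset_sum]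
    refine Finset.sum_congr rfl fun j _ => ?_
    rw [Finsupp.mapDomain_single]; rfl
  simp only [h1, h2]
  rw [Finset.sum_comm (s := (Finset.univ : Finset ι))]
  have h3 : ∀ f : ι ↪ J, ∑ j, Finsupp.single (addC (p ∘ f) (p j)) (1 : ℤ)
      = ∑ j ∈ (Finset.univ.map f)ᶜ, Finsupp.single (addC (p ∘ f) (p j)) (1 : ℤ)
        + ∑ s : ι, Finsupp.single (addC (p ∘ f) (p (f s))) 1 := by
    intro f
    rw [← Finset.sum_compl_add_sum (Finset.univ.map f), Finset.sum_map]
  simp only [h3]
  rw [Finset.sum_add_distrib]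
  congr 1
  rw [← Equiv.sum_comp (Function.Embedding.optionEmbeddingEquiv ι J).symm, Fintype.sum_sigma]
  refine Finset.sum_congr rfl fun f _ => ?_
  symm
  refine Finset.sum_bij' (fun j hj => (⟨j, by
      rw [Finset.mem_compl, Finset.mem_map] at hj
      rintro ⟨i, hi⟩
      exact hj ⟨i, Finset.mem_univ _, hi⟩⟩ : ↥(Set.range f)ᶜ)) (fun c _ => c.1) ?_ ?_ ?_ ?_ ?_
  · intro j hj; exact Finset.mem_univ _
  · rintro ⟨c, hc⟩ -
    rw [Finset.mem_compl, Finset.mem_map]
    rintro ⟨i, -, hi⟩
    exact hc ⟨i, hi⟩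
  · intro j hj; rfl
  · intro c hc; rfl
  · intro j hj
    congr 1
    funext o
    cases o <;> rfl

theorem inj_sub_mem {X : Type v} {M : MorSys k X} (hM : HasConst M) {J : Type} [Fintype J]
    (p q : J → X) (h : dsum p - dsum q ∈ Rat M) (ι : Type) [hι : Finite ι] :
    inj ι J p - inj ι J q ∈ Rat (powSys M ι) := by
  refine Finite.induction_empty_option
    (P := fun ι => ∀ [Finite ι], inj ι J p - inj ι J q ∈ Rat (powSys M ι)) ?_ ?_ ?_ ι
  · intro α β e ih hβ
    have hα : Finite α := Finite.of_equiv β e.symm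
    rw [inj_equiv e p, inj_equiv e q, ← Finsupp.mapDomain.addMonoidHom_apply,
      ← Finsupp.mapDomain.addMonoidHom_apply, ← map_sub]
    refine Rat_push _ ?_ ih
    intro L _ _ φ hφ i
    exact hφ (e.symm i)
  · intro _
    rw [inj_empty p q, sub_self]
    exact zero_mem _
  · intro α _ ih _
    have ih' := @ih inferInstance
    rw [inj_option p, inj_option q]
    have h1 : bx (inj α J p) (dsum p) - ∑ s : α, (inj α J p).mapDomain (fun x : α → X => addC x (x s))
        - (bx (inj α J q) (dsum q) - ∑ s : α, (inj α J q).mapDomain (fun x : α → X => addC x (x s)))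
        = bx (inj α J p - inj α J q) (dsum p) + bx (inj α J q) (dsum p - dsum q)
          - ∑ s : α, (inj α J p - inj α J q).mapDomain (fun x : α → X => addC x (x s)) := by
      have h2 : ∑ s : α, (inj α J p - inj α J q).mapDomain (fun x : α → X => addC x (x s))
          = ∑ s : α, (inj α J p).mapDomain (fun x : α → X => addC x (x s))
            - ∑ s : α, (inj α J q).mapDomain (fun x : α → X => addC x (x s)) := by
        rw [← Finset.sum_sub_distrib]
        refine Finset.sum_congr rfl fun s _ => ?_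
        exact map_sub (Finsupp.mapDomain.addMonoidHom (M := ℤ) (fun x : α → X => addC x (x s))) _ _
      rw [h2, map_sub, LinearMap.sub_apply, map_sub]
      abel
    rw [h1]
    apply sub_mem
    · apply add_mem
      · exact bx_mem_left hM ih' _
      · exact bx_mem_right hM _ h
    · apply sum_mem
      intro s _
      refine Rat_push _ ?_ ih'
      intro L _ _ φ hφ o
      cases o with
      | none => exact hφ s
      | some i => exact hφ i

end Pool.Agent.W479
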