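import Pool.Agent.W792.WA.Stm3
import Pool.Agent.W156.WAFin

/-!
Project WA (MP_28b024_mp), part AEQ: from the mean estimates to spectral measures, unbounded laws.
-/

set_option autoImplicit false

namespace Pool.Agent.W479.WAAeq

open MeasureTheory Filter Pool.Agent.W792.LL Pool.Agent.W792.WA Pool.Agent.W156.WAFin
open scoped Topology

noncomputable section

theorem ae_QQU (hSPM : S_SPMU) (hACI : S_ACI) (hM : S_MZP) (d : ℕ) (hd : 0 < d)
    (ν : Measure ℝ) [IsProbabilityMeasure ν] (f : C(ℝ, ℝ))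
    {ε : ℝ} (hε : 0 < ε) (hf : ∀ t, |f t - t| ≤ ε) (η p : ℕ → ℝ)
    (hη : ∀ n, 0 < η n ∧ η n ≤ 1) (hη0 : Tendsto η atTop (𝓝 0)) (hp : ∀ n, 0 < p n)
    (hpa : Antitone p)
    (hch : ∀ (n : ℕ) (E : ℝ), 0 ≤ E → E ≤ 4 * d →
        ∫ v, |Pf d f (η (n + 1)) E v - Pf d f (η n) E v| ∂(Pn ν (Fin d → ℤ)) ≤ p n / 4 ^ n ∧
        (Pn ν (Fin d → ℤ) {v | Pf d f (η n) E v < p n}).toReal ≤ 1 / 4 ^ n) :
    ∀ᵐ v ∂(Pn ν (Fin d → ℤ)), QQ d f v := by
  classical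
  set P : ℕ → ℝ → ((Fin d → ℤ) → ℝ) → ℝ := fun n E v =>
    if E ∈ Set.Icc (0 : ℝ) (4 * d) then Pf d f (η n) E v else p 0 with hPdef
  have hP1 : ∀ (n : ℕ) (E : ℝ) v, E ∈ Set.Icc (0 : ℝ) (4 * d) → P n E v = Pf d f (η n) E v := by
    intro n E v h
    simp only [hPdef]
    rw [if_pos h]
  have hP2 : ∀ (n : ℕ) (E : ℝ) v, E ∉ Set.Icc (0 : ℝ) (4 * d) → P n E v = p 0 := by
    intro n E v h
    simp only [hPdef]
    rw [if_neg h]
  have hmt := hMT ((Fin d → ℤ) → ℝ) (Pn ν (Fin d → ℤ)) P p ?_ hp hpa ?_ ?_ ?_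
  rotate_left
  · intro n
    have h1 : Measurable (Function.uncurry fun (E : ℝ) (v : (Fin d → ℤ) → ℝ) =>
        Pf d f (η n) E v) :=
      measurable_uncurry_of_continuous_of_measurable (fun v => Pf_cont f (hη n).1 v)
        (fun E => Pf_meas hM hd f hε hf (hη n).1 (hη n).2 E)
    have h2 : MeasurableSet {p : ℝ × ((Fin d → ℤ) → ℝ) | p.1 ∈ Set.Icc (0 : ℝ) (4 * d)} :=
      measurable_fst measurableSet_Icc
    exact Measurable.ite h2 h1 measurable_const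
  · intro n
    obtain ⟨B, hB⟩ := Pf_bound hd f hε hf (hη n).1 (hη n).2 (4 * d)
    refine ⟨max B (p 0), fun E v => ?_⟩
    by_cases hE : E ∈ Set.Icc (0 : ℝ) (4 * d)
    · rw [hP1 n E v hE]
      refine (hB E v ?_).trans (le_max_left _ _)
      rw [abs_of_nonneg hE.1]
      push_cast
      exact hE.2
    · rw [hP2 n E v hE, abs_of_pos (hp 0)]
      exact le_max_right _ _
  · intro n E _
    by_cases hE : E ∈ Set.Icc (0 : ℝ) (4 * d)
    · have := (hch n E hE.1 hE.2).1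
      simp only [hP1 _ E _ hE]
      exact this
    · simp only [hP2 _ E _ hE, sub_self, abs_zero, integral_zero]
      have := hp n
      positivity
  · intro n E _
    by_cases hE : E ∈ Set.Icc (0 : ℝ) (4 * d)
    · have := (hch n E hE.1 hE.2).2
      simp only [hP1 _ E _ hE]
      exact this
    · have h1 : ¬ p 0 < p n := not_lt.2 (hpa (Nat.zero_le n))
      simp only [hP2 _ E _ hE, h1, Set.ofPred_false, measure_empty, ENNReal.toReal_zero]
      positivity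
  filter_upwards [hmt] with v hv
  obtain ⟨hv1, hv2⟩ := hv
  obtain ⟨μ, hμ, hμs⟩ := hSPM d (fK f d) v
  have hgf : ∀ z : ℂ, 0 < z.im → ∫ E : ℝ, 1 / ((E : ℂ) - z) ∂μ = gf (fK f d) 1 v z := by
    intro z hz
    obtain ⟨⟨w, hw⟩, h2⟩ := hμs z hz
    rw [← h2 w hw]
    exact (hG d (fK f d) 1 one_pos v z hz).2 w hw
  have hA0 := Aw_pos v
  have hF : ∀ (n : ℕ) (E : ℝ), (∫ t : ℝ, 1 / ((t : ℂ) - ⟨E, η n⟩) ∂μ).im
      = Aw v * Pf d f (η n) E v := by
    intro n E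
    rw [hgf ⟨E, η n⟩ (hη n).1, gf_im]
  have hd' : (0 : ℝ) < 4 * d := by positivity
  have hsum : Summable fun n : ℕ => ∫ E in Set.Icc (0 : ℝ) (4 * d),
      |(∫ t : ℝ, 1 / ((t : ℂ) - ⟨E, η (n + 1)⟩) ∂μ).im
        - (∫ t : ℝ, 1 / ((t : ℂ) - ⟨E, η n⟩) ∂μ).im| := by
    refine ((hv1 (4 * d)).mul_left (Aw v)).congr fun n => ?_
    rw [← integral_const_mul]
    have h1 : Set.Icc (0 : ℝ) (4 * d) = Set.Icc (-((4 * d : ℕ) : ℝ)) ((4 * d : ℕ) : ℝ)
        ∩ Set.Icc (0 : ℝ) (4 * d) := by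
      rw [Set.inter_eq_right.2]
      push_cast
      exact Set.Icc_subset_Icc (by linarith) le_rfl
    rw [h1, ← setIntegral_indicator measurableSet_Icc]
    refine setIntegral_congr_fun measurableSet_Icc fun E _ => ?_
    by_cases hE : E ∈ Set.Icc (0 : ℝ) (4 * d)
    · simp only [Set.indicator_of_mem hE]
      rw [hP1 _ E _ hE, hP1 _ E _ hE, hF, hF, ← mul_sub, abs_mul, abs_of_pos hA0]
    · simp only [Set.indicator_of_notMem hE]
      rw [hP2 _ E _ hE, hP2 _ E _ hE]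
      simp
  have hlim : ∀ᵐ E ∂(volume.restrict (Set.Ioo (0 : ℝ) (4 * d))), ∃ L : ℝ, 0 < L ∧
      Tendsto (fun n => (∫ t : ℝ, 1 / ((t : ℂ) - ⟨E, η n⟩) ∂μ).im) atTop (𝓝 L) := by
    rw [ae_restrict_iff' measurableSet_Ioo]
    filter_upwards [hv2] with E hE hE2
    obtain ⟨L, hL0, hL1⟩ := hE
    refine ⟨Aw v * L, mul_pos hA0 hL0, ?_⟩
    refine (hL1.const_mul (Aw v)).congr fun n => ?_
    rw [hF, hP1 n E v ⟨hE2.1.le, hE2.2.le⟩]
  obtain ⟨h, hh1, hh2, hh3⟩ := hACI μ 0 (4 * d) η hd' (fun n => (hη n).1) hη0 hsum hlim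
  exact ⟨μ, h, hμ, hμs, hh1, hh2, hh3⟩

theorem main : S_SPMU → S_ACI → S_SHF → S_SCA → S_MZP → S_AEQ := by
  intro hSPM hACI hSHF hSCA hM d ν _ lam ε f _ hd hlam hf hmest
  obtain ⟨η, p, hη, hη0, hp, hpa, hch⟩ := hmest
  have hf' : ∀ t, |f t - t| ≤ max ε 1 := fun t => (hf t).trans (le_max_left _ _)
  have h1 := ae_QQU hSPM hACI hM d hd (ν.map fun x => lam * x) f
    (lt_of_lt_of_le one_pos (le_max_right ε 1)) hf' η p hη hη0 hp hpa hch
  have h2 := hSHF (ν.map fun x => lam * x) d _ h1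
  have h3 := hSCA ν lam d _ h2
  have hsh := (hS d (ker f d) lam (fun _ => True) (by simp)).2
  filter_upwards [h3] with v hv
  intro x
  obtain ⟨μ, h, k1, k2, k3, k4, k5⟩ := hv x
  refine ⟨μ, h, k1, fun z hz => ⟨?_, fun w hw => ?_⟩, k3, k4, k5⟩
  · obtain ⟨w, hw⟩ := (k2 z hz).1
    refine ⟨fun y => w (y - x), (hsh v z x _).2 ?_⟩
    have : (fun y => w (y + x - x)) = w := by funext y; rw [add_sub_cancel_right]
    rw [this]
    exact (sol_scale _ _ (fun y => v (y + x)) _ _ _).1 hw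
  · have h4 := (hsh v z x w).1 hw
    have h5 := (k2 z hz).2 _ ((sol_scale _ _ (fun y => v (y + x)) _ _ _).2 h4)
    rw [← h5, zero_add]

end

end Pool.Agent.W479.WAAeq
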